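import Pool.Agent.Lib.MP_47f674_lc.Ghilardi

namespace Pool.Agent.Lib.MP_47f674_lc

open Classical

/-! Visser rules -/

def vp (i : ℕ) : Fm := .var (3 * i)
def vq (i : ℕ) : Fm := .var (3 * i + 1)
def vr : Fm := .var 2
def vAnte (n : ℕ) : Fm := conj ((List.range n).map fun i => Fm.imp (vp (i + 1)) (vq (i + 1)))
def vPrem (n : ℕ) : Fm := .or (.imp (vAnte n) (.or (vp (n + 1)) (vp (n + 2)))) vr
def vConc (n : ℕ) : Fm :=
  .or (disj ((List.range (n + 2)).map fun j => Fm.imp (vAnte n) (vp (j + 1)))) vr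

theorem PT.conj_iff (x : PT) (l : List Fm) : conj l ∈ x.T ↔ ∀ a ∈ l, a ∈ x.T := by
  rw [← truth, force_conj]
  simp only [truth]

theorem PT.disj_iff (x : PT) (l : List Fm) : disj l ∈ x.T ↔ ∃ a ∈ l, a ∈ x.T := by
  rw [← truth, force_disj]
  simp only [truth]

theorem visser_ipc (n : ℕ) : Admissible IPC [vPrem n] (vConc n) := by
  intro σ hP
  have hP : Deriv ∅ ((vPrem n).subst σ) := hP _ List.mem_cons_self
  by_contra hC
  obtain ⟨x, -, hx⟩ := exists_pt (X := ∅) (b := (vConc n).subst σ) hC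
  simp only [vConc, Fm.subst, x.or_iff, not_or, subst_disj, x.disj_iff, List.map_map,
    List.mem_map, List.mem_range, Function.comp] at hx
  obtain ⟨hx1, hx2⟩ := hx
  have hy : ∀ j, j < n + 2 → ∃ y : PT, (vAnte n).subst σ ∈ y.T ∧ (vp (j + 1)).subst σ ∉ y.T := by
    intro j hj
    have : Fm.imp ((vAnte n).subst σ) ((vp (j + 1)).subst σ) ∉ x.T :=
      fun h => hx1 ⟨_, ⟨j, hj, rfl⟩, h⟩
    obtain ⟨y, hy, hb, -⟩ := lindenbaum (x.th.ext ((vAnte n).subst σ)) (b := _) this
    exact ⟨y, hy (x.th.imp_self _), hb⟩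
  let S : Set PT := {y | (vAnte n).subst σ ∈ y.T}
  let z := slashPT S
  have hzp : ∀ j, j < n + 2 → (vp (j + 1)).subst σ ∉ z.T := by
    intro j hj h
    obtain ⟨y, h1, h2⟩ := hy j hj
    exact h2 (slashPT_le S h1 h)
  have hzA : (vAnte n).subst σ ∈ z.T := by
    simp only [vAnte, subst_conj, z.conj_iff, List.map_map, List.mem_map, List.mem_range,
      Function.comp]
    rintro _ ⟨i, hi, rfl⟩
    refine (slashPT_imp S _ _).2 ⟨fun y hy => ?_, fun h => absurd h (hzp i (by omega))⟩
    have hy : (vAnte n).subst σ ∈ y.T := hy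
    simp only [vAnte, subst_conj, y.conj_iff, List.map_map, List.mem_map, List.mem_range,
      Function.comp] at hy
    exact hy _ ⟨i, hi, rfl⟩
  let x' := slashPT {x, z}
  have h1 : (vPrem n).subst σ ∈ x'.T := x'.th.deriv (by simp) hP
  simp only [vPrem, Fm.subst, x'.or_iff] at h1
  rcases h1 with h1 | h1
  · have h2 := z.th.mp (slashPT_le {x, z} (y := z) (by simp) h1) hzA
    rcases z.prime h2 with h | h
    · exact hzp n (by omega) h
    · exact hzp (n + 1) (by omega) h
  · exact hx2 (slashPT_le {x, z} (y := x) (by simp) h1)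

/-! Horn programs on quadruples of natural numbers -/

abbrev Tm := Option ℕ × ℕ
abbrev Atom := Fin 4 → Tm
abbrev Clause := List Atom × Atom

def Tm.ev (ρ : ℕ → ℕ) : Tm → ℕ
  | (some i, c) => ρ i + c
  | (none, c) => c

def Atom.ev (ρ : ℕ → ℕ) (a : Atom) : Fin 4 → ℕ := fun i => (a i).ev ρ

inductive Der (P : List Clause) : (Fin 4 → ℕ) → Prop
  | intro (c : Clause) (hc : c ∈ P) (ρ : ℕ → ℕ) (hb : ∀ a ∈ c.1, Der P (a.ev ρ)) :
      Der P (c.2.ev ρ)

/-! The formulas -/

def EE (i : Fin 9) : Fm :=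
  .and (.var i) (conj (((List.finRange 9).filter (fun j => j ≠ i)).map
    fun j : Fin 9 => neg (.var j)))
def nn (i : Fin 9) : Fm := neg (EE i)
def MM : Fm := disj ((List.finRange 9).map nn)
def Single : Fm := disj ((List.finRange 9).map fun j => neg (nn j))
def prc (i j : Fin 9) : Fm := .imp (nn j) (.or (nn i) (neg (nn i)))
def DD : Fm := conj [prc 8 7, prc 7 6, prc 6 5, prc 5 4, prc 4 3, prc 3 0, prc 3 1, prc 3 2]
def sc (v : Fm × Fm) : Fm × Fm := (v.2, .or v.2 (.imp v.2 v.1))
def zr : Fm × Fm := (Single, .or (nn 0) (.or (nn 1) (nn 2)))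
def rel (a b : Fm) : Fm := .imp (.and (nn 3) a) b
def Good (v : Fm × Fm) : Fm :=
  conj [rel Single v.1, rel v.1 v.2, .imp (rel (.imp v.2 v.1) v.1) MM,
    .imp (rel (.imp (.imp v.2 v.1) v.1) v.2) MM]
def UU (i : Fin 4) (v : Fm × Fm) : Fm :=
  .imp (.and (nn ⟨i.val + 4, by omega⟩) (rel top v.2))
    (.or (nn ⟨i.val + 3, by omega⟩) (rel v.2 v.1))
def RR (t : Fin 4 → Fm × Fm) : Fm :=
  .imp (nn 8) (disj ((List.finRange 4).map fun i => UU i (t i)))
def Fact (t : Fin 4 → Fm × Fm) : Fm := .imp (RR t) MM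
def vv (i : ℕ) : Fm × Fm := (.var (9 + 2 * i), .var (10 + 2 * i))
def num (j : ℕ) : Fm × Fm := sc^[j] zr
def tmFm : Tm → Fm × Fm
  | (some i, c) => sc^[c] (vv i)
  | (none, c) => num c
def atomFm (a : Atom) : Fm := Fact fun i => tmFm (a i)
def atomVars (a : Atom) : List ℕ := (List.finRange 4).filterMap fun i => (a i).1
def clauseVars (c : Clause) : List ℕ := (c.2 :: c.1).flatMap atomVars
def ruleFm (Γ : List Fm) (b : Fm) : Fm := .imp (conj (DD :: Γ)) (.or b MM)
def clauseFm (c : Clause) : Fm :=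
  ruleFm ((clauseVars c).map (fun i => Good (vv i)) ++ c.1.map atomFm) (atomFm c.2)
def ren (σ : Equiv.Perm (Fin 9)) : ℕ → Fm :=
  fun n => if h : n < 9 then .var (σ ⟨n, h⟩) else .var n
noncomputable def Rig : Fm :=
  .or MM (disj ((Finset.univ : Finset (Equiv.Perm (Fin 9))).toList.map fun σ => DD.subst (ren σ)))
def afAnte : Fm := conj ((List.finRange 9).map fun k => Fm.imp (nn k) Single)
def AF : Fm := .imp afAnte (.or (nn 0) (nn 1))
noncomputable def Base (P : List Clause) : Fm :=
  conj ([Rig, AF, ruleFm [] (Good zr), ruleFm [Good (vv 0)] (Good (sc (vv 0)))] ++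
    P.map clauseFm)
def goalAt (H : ℕ) (v : Fm × Fm) : Fin 4 → Fm × Fm := ![num H, v, zr, zr]
def GoalFm (H : ℕ) (v : Fm × Fm) : Fm := ruleFm [Fact (goalAt H v)] .bot
noncomputable def AA (P : List Clause) (H n : ℕ) : Fm := .and (Base P) (GoalFm H (num n))

section
variable {W : Type} [Preorder W] {V : ℕ → W → Prop}

theorem force_EE (i : Fin 9) (w : W) :
    force V (EE i) w ↔ V i w ∧ ∀ j : Fin 9, j ≠ i → ∀ u, w ≤ u → ¬ V j u := by
  simp only [EE, force_and, force_var, force_conj, List.mem_map, List.mem_filter,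
    List.mem_finRange, true_and, decide_eq_true_eq]
  refine and_congr_right fun _ => ⟨fun h j hj => h _ ⟨j, hj, rfl⟩, ?_⟩
  rintro h _ ⟨j, hj, rfl⟩
  exact h j hj

theorem EE_disj {i j : Fin 9} {w u : W} (hwu : w ≤ u) (hi : force V (EE i) w)
    (hj : force V (EE j) u) : i = j := by
  by_contra h
  rw [force_EE] at hi hj
  exact hi.2 j (Ne.symm h) u hwu hj.1

theorem force_MM (w : W) : force V MM w ↔ ∃ i, force V (nn i) w := by
  simp [MM]

theorem force_Single (w : W) : force V Single w ↔ ∃ i, force V (neg (nn i)) w := by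
  simp [Single]

theorem force_nn (i : Fin 9) (w : W) : force V (nn i) w ↔ ∀ u, w ≤ u → ¬ force V (EE i) u :=
  Iff.rfl

theorem force_ren_EE (σ : Equiv.Perm (Fin 9)) (i : Fin 9) (w : W) :
    force (fun n => force V (ren σ n)) (EE i) w ↔ force V (EE (σ i)) w := by
  have h : ∀ (j : Fin 9) (u : W), force V (ren σ j) u ↔ V (σ j) u := by
    intro j u
    simp [ren]
  simp only [force_EE, h]
  refine and_congr_right fun _ => ⟨fun H j hj => ?_, fun H j hj => H _ (by simpa using hj)⟩
  have := H (σ.symm j) (by intro h'; apply hj; rw [← h']; simp)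
  simpa using this

theorem force_ren_nn (σ : Equiv.Perm (Fin 9)) (i : Fin 9) (w : W) :
    force (fun n => force V (ren σ n)) (nn i) w ↔ force V (nn (σ i)) w := by
  simp only [force_nn, force_ren_EE]

theorem force_ren_MM (σ : Equiv.Perm (Fin 9)) (w : W) :
    force (fun n => force V (ren σ n)) MM w ↔ force V MM w := by
  simp only [force_MM, force_ren_nn]
  exact ⟨fun ⟨i, h⟩ => ⟨_, h⟩, fun ⟨i, h⟩ => ⟨σ.symm i, by simpa using h⟩⟩

theorem force_ruleFm (Γ : List Fm) (b : Fm) (w : W) :
    force V (ruleFm Γ b) w ↔ ∀ u, w ≤ u → force V DD u → (∀ a ∈ Γ, force V a u) →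
      force V b u ∨ force V MM u := by
  simp only [ruleFm, force_imp, force_conj, List.mem_cons, forall_eq_or_imp, force_or, and_imp]

theorem AF_of_MM {w : W} (h : ∀ u, w ≤ u → force V afAnte u → force V MM u ∨
    ¬ force V afAnte u) : force V AF w := by
  intro u hu hA
  rcases h u hu hA with hM | hM
  swap
  · exact absurd hA hM
  obtain ⟨k, hk⟩ := (force_MM u).1 hM
  simp only [afAnte, force_conj, List.mem_map, List.mem_finRange, true_and] at hA
  obtain ⟨j, hj⟩ := (force_Single u).1 (hA _ ⟨k, rfl⟩ u le_rfl hk)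
  have key : ∀ i, i ≠ j → force V (nn i) u := by
    intro i hij x hx hi
    refine hj x hx fun y hy hjy => hij (EE_disj hy hi hjy)
  by_cases h0 : j = 0
  · right
    exact key 1 (by rw [h0]; decide)
  · left
    exact key 0 (Ne.symm h0)

theorem AA_of_MM (hV : Mono V) (P : List Clause) (H n : ℕ) {w : W} (h : force V MM w) :
    force V (AA P H n) w := by
  have hr : ∀ Γ b, force V (ruleFm Γ b) w := fun Γ b =>
    (force_ruleFm Γ b w).2 fun u hu _ _ => Or.inr (force_mono hV _ hu h)
  refine ⟨?_, hr _ _⟩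
  simp only [Base, force_conj, List.mem_append, List.mem_cons, List.mem_map, List.not_mem_nil,
    or_false]
  rintro a ((rfl | rfl | rfl | rfl) | ⟨c, -, rfl⟩)
  · exact Or.inl h
  · exact AF_of_MM fun u hu _ => Or.inl (force_mono hV _ hu h)
  · exact hr _ _
  · exact hr _ _
  · exact hr _ _

end

/-! substitutions fixing the first nine variables -/

def Fix (σ : ℕ → Fm) : Prop := ∀ i : Fin 9, σ i = .var i

def psub (σ : ℕ → Fm) (v : Fm × Fm) : Fm × Fm := (v.1.subst σ, v.2.subst σ)

section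
variable {σ : ℕ → Fm}

theorem Fix.EE (h : Fix σ) (i : Fin 9) : (EE i).subst σ = EE i := by
  simp only [MP_47f674_lc.EE, Fm.subst, subst_conj, List.map_map, h i]
  congr 2
  refine List.map_congr_left fun j _ => ?_
  simp [Fm.subst, h j]

theorem Fix.nn (h : Fix σ) (i : Fin 9) : (nn i).subst σ = nn i := by
  simp [MP_47f674_lc.nn, h.EE]

theorem Fix.MM (h : Fix σ) : MM.subst σ = MM := by
  simp only [MP_47f674_lc.MM, subst_disj, List.map_map]
  congr 1
  exact List.map_congr_left fun j _ => h.nn j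

theorem Fix.Single (h : Fix σ) : Single.subst σ = Single := by
  simp only [MP_47f674_lc.Single, subst_disj, List.map_map]
  congr 1
  refine List.map_congr_left fun j _ => ?_
  simp [h.nn]

theorem Fix.DD (h : Fix σ) : DD.subst σ = DD := by
  simp [MP_47f674_lc.DD, prc, Fm.subst, h.nn]

theorem psub_sc (v : Fm × Fm) : psub σ (sc v) = sc (psub σ v) := rfl

theorem psub_iter (c : ℕ) (v : Fm × Fm) : psub σ (sc^[c] v) = sc^[c] (psub σ v) := by
  induction c generalizing v with
  | zero => rfl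
  | succ c ih => simp [Function.iterate_succ, ih, psub_sc]

theorem Fix.zr (h : Fix σ) : psub σ zr = zr := by
  simp [psub, MP_47f674_lc.zr, Fm.subst, h.nn, h.Single]

theorem Fix.num (h : Fix σ) (j : ℕ) : psub σ (num j) = num j := by
  simp [MP_47f674_lc.num, psub_iter, h.zr]

theorem Fix.rel (h : Fix σ) (a b : Fm) : (rel a b).subst σ = rel (a.subst σ) (b.subst σ) := by
  simp [MP_47f674_lc.rel, Fm.subst, h.nn]

theorem Fix.Good (h : Fix σ) (v : Fm × Fm) : (Good v).subst σ = Good (psub σ v) := by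
  simp [MP_47f674_lc.Good, Fm.subst, h.rel, h.MM, h.Single, psub]

theorem Fix.UU (h : Fix σ) (i : Fin 4) (v : Fm × Fm) :
    (UU i v).subst σ = UU i (psub σ v) := by
  simp [MP_47f674_lc.UU, Fm.subst, h.rel, h.nn, psub]

theorem Fix.Fact (h : Fix σ) (t : Fin 4 → Fm × Fm) :
    (Fact t).subst σ = Fact (fun i => psub σ (t i)) := by
  simp only [MP_47f674_lc.Fact, RR, Fm.subst, h.nn, h.MM, subst_disj, List.map_map]
  congr 3
  exact List.map_congr_left fun j _ => h.UU j _

theorem Fix.ruleFm (h : Fix σ) (Γ : List Fm) (b : Fm) :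
    (ruleFm Γ b).subst σ = ruleFm (Γ.map (Fm.subst σ)) (b.subst σ) := by
  simp [MP_47f674_lc.ruleFm, Fm.subst, h.DD, h.MM]

end

def asg (g : ℕ → Fm × Fm) : ℕ → Fm := fun n =>
  if n < 9 then .var n else if n % 2 = 1 then (g ((n - 9) / 2)).1 else (g ((n - 10) / 2)).2

theorem asg_fix (g : ℕ → Fm × Fm) : Fix (asg g) := fun i => by simp [asg, i.2]

theorem psub_asg (g : ℕ → Fm × Fm) (i : ℕ) : psub (asg g) (vv i) = g i := by
  have h1 : ¬ (9 + 2 * i < 9) := by omega
  have h2 : ¬ (10 + 2 * i < 9) := by omega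
  have h3 : (9 + 2 * i) % 2 = 1 := by omega
  have h4 : ¬ ((10 + 2 * i) % 2 = 1) := by omega
  have h5 : (9 + 2 * i - 9) / 2 = i := by omega
  have h6 : (10 + 2 * i - 10) / 2 = i := by omega
  simp only [psub, vv, Fm.subst, asg, h1, h2, h3, h4, h5, h6, if_true, if_false]

theorem psub_tm (ρ : ℕ → ℕ) (t : Tm) :
    psub (asg fun i => num (ρ i)) (tmFm t) = num (t.ev ρ) := by
  rcases t with ⟨_ | i, c⟩
  · exact (asg_fix _).num c
  · simp only [tmFm, psub_iter, psub_asg, Tm.ev, num]
    rw [add_comm, Function.iterate_add_apply]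

def factNum (f : Fin 4 → ℕ) : Fm := Fact fun i => num (f i)

theorem subst_atom (ρ : ℕ → ℕ) (a : Atom) :
    (atomFm a).subst (asg fun i => num (ρ i)) = factNum (a.ev ρ) := by
  simp only [atomFm, (asg_fix _).Fact, psub_tm]
  rfl

theorem goal_eq (H n : ℕ) : Fact (goalAt H (num n)) = factNum ![H, n, 0, 0] := by
  unfold factNum
  congr 1
  funext i
  fin_cases i <;> rfl

/-- If the goal is derivable, the formula `MM` holds in every model of all instances of `AA`. -/
theorem MM_of_AA {W : Type} [Preorder W] {V : ℕ → W → Prop} {P : List Clause} {H n : ℕ}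
    (hd : Der P ![H, n, 0, 0]) {w : W} (h : ∀ σ, force V ((AA P H n).subst σ) w) :
    force V MM w := by
  by_contra hM
  have h0 := h Fm.var
  rw [subst_var] at h0
  have hRig : force V Rig w := by
    have := h0.1
    simp only [Base, force_conj] at this
    exact this _ (by simp)
  rcases hRig with hRig | hRig
  · exact hM hRig
  simp only [force_disj, List.mem_map, Finset.mem_toList, Finset.mem_univ, true_and] at hRig
  obtain ⟨_, ⟨τ, rfl⟩, hD⟩ := hRig
  rw [force_subst] at hD
  set V' : ℕ → W → Prop := fun n => force V (ren τ n) with hV'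
  have hM' : ¬ force V' MM w := fun h => hM ((force_ren_MM τ w).1 h)
  have h' : ∀ σ, force V' ((AA P H n).subst σ) w := by
    intro σ
    rw [hV', ← force_subst, subst_subst]
    exact h _
  have hB : ∀ σ, ∀ a ∈ ([Rig, AF, ruleFm [] (Good zr),
      ruleFm [Good (vv 0)] (Good (sc (vv 0)))] ++ P.map clauseFm), force V' (a.subst σ) w := by
    intro σ a ha
    have := (h' σ).1
    simp only [Base, subst_conj, force_conj] at this
    exact this _ (List.mem_map_of_mem ha)
  have use : ∀ (g : ℕ → Fm × Fm) (Γ : List Fm) (b : Fm),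
      force V' ((ruleFm Γ b).subst (asg g)) w → (∀ a ∈ Γ, force V' (a.subst (asg g)) w) →
      force V' (b.subst (asg g)) w := by
    intro g Γ b h1 h2
    rw [(asg_fix g).ruleFm, force_ruleFm] at h1
    rcases h1 w le_rfl hD (by
      intro a ha
      obtain ⟨a', ha', rfl⟩ := List.mem_map.1 ha
      exact h2 a' ha') with h | h
    · exact h
    · exact absurd h hM'
  have hG : ∀ j, force V' (Good (num j)) w := by
    intro j
    induction j with
    | zero =>
      have := use (fun _ => zr) [] (Good zr) (hB _ _ (by simp)) (by simp)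
      rwa [(asg_fix _).Good, (asg_fix _).zr] at this
    | succ j ih =>
      have := use (fun _ => num j) [Good (vv 0)] (Good (sc (vv 0))) (hB _ _ (by simp)) (by
        simp only [List.mem_singleton, forall_eq]
        rwa [(asg_fix _).Good, psub_asg])
      rw [(asg_fix _).Good, psub_sc, psub_asg] at this
      simpa only [num, Function.iterate_succ_apply'] using this
  have hF : ∀ f, Der P f → force V' (factNum f) w := by
    intro f hf
    induction hf with
    | intro c hc ρ _ ih =>
      have := use (fun i => num (ρ i)) _ _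
        (hB _ (clauseFm c) (List.mem_append_right _ (List.mem_map_of_mem hc))) (by
          intro a ha
          rcases List.mem_append.1 ha with ha | ha
          · obtain ⟨i, -, rfl⟩ := List.mem_map.1 ha
            rw [(asg_fix _).Good, psub_asg]
            exact hG _
          · obtain ⟨a', ha', rfl⟩ := List.mem_map.1 ha
            rw [subst_atom]
            exact ih a' ha')
      rwa [subst_atom] at this
  have hg := (h' Fm.var).2
  rw [subst_var, GoalFm, force_ruleFm] at hg
  rcases hg w le_rfl hD (by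
    simp only [List.mem_singleton, forall_eq]
    have := hF _ hd
    rw [goal_eq]
    exact this) with h | h
  · exact h
  · exact hM' h

theorem logic_eq {P : List Clause} {H n : ℕ} (hd : Der P ![H, n, 0, 0]) :
    Logic (AA P H n) = Logic MM := by
  ext b
  constructor
  · intro hb
    refine (isTh_deriv _).deriv ?_ hb
    rintro _ ⟨σ, rfl⟩
    refine completeness fun W _ V hV w hw => ?_
    rw [force_subst]
    refine AA_of_MM (mono_subst hV σ) P H n ?_
    rw [← force_subst]
    exact hw _ ⟨σ, rfl⟩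
  · intro hb
    refine (isTh_deriv _).deriv ?_ hb
    rintro _ ⟨σ, rfl⟩
    refine completeness fun W _ V hV w hw => ?_
    rw [force_subst]
    refine MM_of_AA hd fun τ => ?_
    rw [← force_subst, subst_subst]
    exact hw _ ⟨_, rfl⟩

theorem negDet_MM : NegDet {c | ∃ σ : ℕ → Fm, c = MM.subst σ} := by
  rintro x y hx hxy _ ⟨σ, rfl⟩
  have := hx ⟨σ, rfl⟩
  simp only [MM, subst_disj, PT.disj_iff, List.map_map, List.mem_map, Function.comp] at this ⊢
  obtain ⟨_, ⟨i, hi, rfl⟩, h⟩ := this
  exact ⟨_, ⟨i, hi, rfl⟩, hxy _ h⟩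

theorem admits_of_der {P : List Clause} {H n : ℕ} (hd : Der P ![H, n, 0, 0])
    (Γ : List Fm) (B : Fm) (h : Admissible IPC Γ B) : Admissible (Logic (AA P H n)) Γ B := by
  rw [logic_eq hd]
  exact admits_of_negDet negDet_MM h

end Pool.Agent.Lib.MP_47f674_lc
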