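import Mathlib.Computability.Halting

namespace Pool.Agent.Lib.MP_47f674_lc

/-- Propositional formulas over countably many variables, with `⊥, ∧, ∨, →`. -/
inductive Fm : Type
  | var : ℕ → Fm
  | bot : Fm
  | and : Fm → Fm → Fm
  | or : Fm → Fm → Fm
  | imp : Fm → Fm → Fm

/-- Simultaneous substitution of the formula `σ n` for the variable number `n`. -/
def Fm.subst (σ : ℕ → Fm) : Fm → Fm
  | .var n => σ n
  | .bot => .bot
  | .and a b => .and (a.subst σ) (b.subst σ)
  | .or a b => .or (a.subst σ) (b.subst σ)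
  | .imp a b => .imp (a.subst σ) (b.subst σ)

/-- Goedel numbering of formulas by iterated Cantor-style pairing. -/
def Fm.code : Fm → ℕ
  | .var n => Nat.pair 0 n
  | .bot => Nat.pair 1 0
  | .and a b => Nat.pair 2 (Nat.pair a.code b.code)
  | .or a b => Nat.pair 3 (Nat.pair a.code b.code)
  | .imp a b => Nat.pair 4 (Nat.pair a.code b.code)

/-- The standard Hilbert schemes of intuitionistic propositional calculus. -/
inductive IPCAx : Fm → Prop
  | k (a b : Fm) : IPCAx (.imp a (.imp b a))
  | s (a b c : Fm) : IPCAx (.imp (.imp a (.imp b c)) (.imp (.imp a b) (.imp a c)))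
  | andL (a b : Fm) : IPCAx (.imp (.and a b) a)
  | andR (a b : Fm) : IPCAx (.imp (.and a b) b)
  | andI (a b : Fm) : IPCAx (.imp a (.imp b (.and a b)))
  | orL (a b : Fm) : IPCAx (.imp a (.or a b))
  | orR (a b : Fm) : IPCAx (.imp b (.or a b))
  | orE (a b c : Fm) : IPCAx (.imp (.imp a c) (.imp (.imp b c) (.imp (.or a b) c)))
  | efq (a : Fm) : IPCAx (.imp .bot a)

/-- The least set of formulas containing the IPC schemes and `X`, closed under modus ponens. -/
inductive Deriv (X : Set Fm) : Fm → Prop
  | ax {a : Fm} : IPCAx a → Deriv X a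
  | hyp {a : Fm} : a ∈ X → Deriv X a
  | mp {a b : Fm} : Deriv X (.imp a b) → Deriv X a → Deriv X b

/-- Intuitionistic propositional calculus, as a set of theorems. -/
def IPC : Set Fm := {b | Deriv ∅ b}

/-- The logic `L_A`: IPC schemes, all substitution instances of `A`, modus ponens. -/
def Logic (A : Fm) : Set Fm := {b | Deriv {c | ∃ σ : ℕ → Fm, c = A.subst σ} b}

/-- The rule with premises `Γ` and conclusion `B` is admissible in `L`. -/
def Admissible (L : Set Fm) (Γ : List Fm) (B : Fm) : Prop :=
  ∀ σ : ℕ → Fm, (∀ C ∈ Γ, C.subst σ ∈ L) → B.subst σ ∈ L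

end Pool.Agent.Lib.MP_47f674_lc
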