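import Pool.Agent.Lib.MP_47f674_lc.Axioms

namespace Pool.Agent.Lib.MP_47f674_lc

open Classical

inductive Pt (D : (Fin 4 → ℕ) → Prop) : Type
  | mx (i : Fin 9)
  | w (j : ℕ)
  | u (i : Fin 4) (j : ℕ)
  | r (f : Fin 4 → ℕ) (h : D f)
  | root

variable {D : (Fin 4 → ℕ) → Prop}

def Pt.le : Pt D → Pt D → Prop
  | .root, _ => True
  | .mx i, .mx k => i = k
  | .w j, .mx k => k.val < 2 ∨ (k.val = 2 ∧ 1 ≤ j)
  | .w j, .w k => k = j ∨ k + 2 ≤ j
  | .u i _, .mx k => k.val ≤ 3 + i.val
  | .u _ j, .w k => k = j ∨ k + 2 ≤ j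
  | .u i j, .u i' j' => i = i' ∧ j = j'
  | .r _ _, .mx k => k.val ≤ 7
  | .r f _, .w k => ∃ i, k = f i ∨ k + 2 ≤ f i
  | .r f _, .u i j => f i = j
  | .r f _, .r f' _ => f = f'
  | _, _ => False

instance : Preorder (Pt D) where
  le := Pt.le
  le_refl x := by cases x <;> simp [Pt.le]
  le_trans x y z h1 h2 := by
    cases x <;> cases y <;> cases z <;> simp only [Pt.le] at h1 h2 ⊢ <;>
      first
        | trivial
        | omega
        | exact h1.trans h2
        | (obtain ⟨i, hi⟩ := h1; exact ⟨i, by omega⟩)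
        | (subst h1; exact h2)
        | (subst h1; exact ⟨_, h2⟩)
        | (obtain ⟨rfl, rfl⟩ := h2; exact h1)

section
variable (i k : Fin 9) (a b : Fin 4) (j l : ℕ) (f g : Fin 4 → ℕ) (hf : D f) (hg : D g) (y : Pt D)
@[simp] theorem le_root_any : (Pt.root : Pt D) ≤ y ↔ True := Iff.rfl
@[simp] theorem le_mx_mx : (Pt.mx i : Pt D) ≤ .mx k ↔ i = k := Iff.rfl
@[simp] theorem le_mx_w : (Pt.mx i : Pt D) ≤ .w j ↔ False := Iff.rfl
@[simp] theorem le_mx_u : (Pt.mx i : Pt D) ≤ .u a j ↔ False := Iff.rfl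
@[simp] theorem le_mx_r : (Pt.mx i : Pt D) ≤ .r f hf ↔ False := Iff.rfl
@[simp] theorem le_mx_root : (Pt.mx i : Pt D) ≤ .root ↔ False := Iff.rfl
@[simp] theorem le_w_mx : (Pt.w j : Pt D) ≤ .mx k ↔ k.val < 2 ∨ (k.val = 2 ∧ 1 ≤ j) := Iff.rfl
@[simp] theorem le_w_w : (Pt.w j : Pt D) ≤ .w l ↔ l = j ∨ l + 2 ≤ j := Iff.rfl
@[simp] theorem le_w_u : (Pt.w l : Pt D) ≤ .u a j ↔ False := Iff.rfl
@[simp] theorem le_w_r : (Pt.w l : Pt D) ≤ .r f hf ↔ False := Iff.rfl
@[simp] theorem le_w_root : (Pt.w l : Pt D) ≤ .root ↔ False := Iff.rfl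
@[simp] theorem le_u_mx : (Pt.u a j : Pt D) ≤ .mx k ↔ k.val ≤ 3 + a.val := Iff.rfl
@[simp] theorem le_u_w : (Pt.u a j : Pt D) ≤ .w l ↔ l = j ∨ l + 2 ≤ j := Iff.rfl
@[simp] theorem le_u_u : (Pt.u a j : Pt D) ≤ .u b l ↔ a = b ∧ j = l := Iff.rfl
@[simp] theorem le_u_r : (Pt.u a l : Pt D) ≤ .r f hf ↔ False := Iff.rfl
@[simp] theorem le_u_root : (Pt.u a l : Pt D) ≤ .root ↔ False := Iff.rfl
@[simp] theorem le_r_mx : (Pt.r f hf : Pt D) ≤ .mx k ↔ k.val ≤ 7 := Iff.rfl
@[simp] theorem le_r_w : (Pt.r f hf : Pt D) ≤ .w l ↔ ∃ i, l = f i ∨ l + 2 ≤ f i := Iff.rfl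
@[simp] theorem le_r_u : (Pt.r f hf : Pt D) ≤ .u a j ↔ f a = j := Iff.rfl
@[simp] theorem le_r_r : (Pt.r f hf : Pt D) ≤ .r g hg ↔ f = g := Iff.rfl
@[simp] theorem le_r_root : (Pt.r f hf : Pt D) ≤ .root ↔ False := Iff.rfl
end

theorem exists_mx (y : Pt D) : ∃ k, y ≤ .mx k := by
  cases y with
  | mx i => exact ⟨i, le_rfl⟩
  | w j => exact ⟨0, by simp⟩
  | u i j => exact ⟨0, by simp⟩
  | r f h => exact ⟨0, by simp⟩
  | root => exact ⟨0, by simp⟩

theorem mx_le {i : Fin 9} {y : Pt D} (h : Pt.mx i ≤ y) : y = .mx i := by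
  cases y <;> simp_all

theorem not_mx_sees {y : Pt D} (h : ∀ k, y ≠ .mx k) : y ≤ .mx 0 ∧ y ≤ .mx 1 := by
  cases y with
  | mx i => exact absurd rfl (h i)
  | w j => simp
  | u i j => simp; omega
  | r f h => simp
  | root => simp

variable {V : ℕ → Pt D → Prop}

theorem force_imp_mx (a b : Fm) (i : Fin 9) :
    force V (.imp a b) (.mx i) ↔ (force V a (.mx i) → force V b (.mx i)) :=
  ⟨fun h => h _ le_rfl, fun h y hy => by rw [mx_le hy]; exact h⟩

/-- the formulas `nn i` are interpreted through the permutation `τ`. -/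
def PermSem (V : ℕ → Pt D → Prop) (τ : Equiv.Perm (Fin 9)) : Prop :=
  ∀ i y, force V (nn i) y ↔ ¬ y ≤ .mx (τ i)

theorem permSem_of_not_MM (hV : Mono V) {y : Pt D} (h : ¬ force V MM y) :
    y = .root ∧ ∃ τ, PermSem V τ := by
  rw [force_MM] at h
  have h1 : ∀ i, ∃ k, y ≤ .mx k ∧ force V (EE i) (.mx k) := by
    intro i
    by_contra hn
    refine h ⟨i, fun x hx hE => hn ?_⟩
    obtain ⟨k, hk⟩ := exists_mx x
    exact ⟨k, hx.trans hk, force_mono hV _ hk hE⟩
  choose t ht1 ht2 using h1
  have hinj : Function.Injective t := by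
    intro i j hij
    exact EE_disj le_rfl (ht2 i) (hij ▸ ht2 j)
  have hsurj : Function.Surjective t := Finite.injective_iff_surjective.1 hinj
  refine ⟨?_, Equiv.ofBijective t ⟨hinj, hsurj⟩, fun i x => ?_⟩
  · obtain ⟨i, hi⟩ := hsurj 8
    obtain ⟨i', hi'⟩ := hsurj 0
    have h8 := ht1 i
    have h0 := ht1 i'
    rw [hi] at h8
    rw [hi'] at h0
    cases y with
    | mx m => simp at h8 h0; omega
    | w j => simp at h8
    | u a j => simp at h8; omega
    | r f h => simp at h8
    | root => rfl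
  · simp only [Equiv.ofBijective_apply, force_nn]
    constructor
    · intro H hx
      exact H _ hx (ht2 i)
    · intro H z hz hE
      obtain ⟨k, hk⟩ := exists_mx z
      obtain ⟨j, rfl⟩ := hsurj k
      have : i = j := EE_disj hk hE (ht2 j)
      subst this
      exact H (hz.trans hk)

theorem MM_of_ne (hV : Mono V) {y : Pt D} (h : y ≠ .root) : force V MM y := by
  by_contra hM
  exact h (permSem_of_not_MM hV hM).1

theorem PermSem.negnn {τ : Equiv.Perm (Fin 9)} (h : PermSem V τ) (i : Fin 9) (y : Pt D) :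
    force V (neg (nn i)) y ↔ y = .mx (τ i) := by
  rw [force_neg]
  simp only [h i, not_not]
  constructor
  · intro H
    by_cases hy : ∃ k, y = .mx k
    · obtain ⟨k, rfl⟩ := hy
      have := H _ le_rfl
      simp only [le_mx_mx] at this
      rw [this]
    · push Not at hy
      have h0 := H _ (not_mx_sees hy).1
      have h1 := H _ (not_mx_sees hy).2
      simp only [le_mx_mx] at h0 h1
      rw [← h0] at h1
      exact absurd h1 (by decide)
  · rintro rfl u hu
    rw [mx_le hu]

theorem PermSem.single {τ : Equiv.Perm (Fin 9)} (h : PermSem V τ) (y : Pt D) :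
    force V Single y ↔ ∃ k, y = .mx k := by
  simp only [force_Single, h.negnn]
  exact ⟨fun ⟨i, hi⟩ => ⟨_, hi⟩, fun ⟨k, hk⟩ => ⟨τ.symm k, by simpa using hk⟩⟩

theorem PermSem.prc {τ : Equiv.Perm (Fin 9)} (h : PermSem V τ) (i j : Fin 9) :
    force V (prc i j) .root ↔
      ∀ y : Pt D, y ≤ .mx (τ i) → y ≠ .mx (τ i) → y ≤ .mx (τ j) := by
  simp only [MP_47f674_lc.prc, force_imp, le_root_any, true_imp_iff, force_or, h.negnn, h i, h j]
  refine forall_congr' fun y => ?_
  tauto

theorem prc_order (hD : ∃ f, D f) {k l : Fin 9} (hkl : k ≠ l)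
    (h : ∀ y : Pt D, y ≤ .mx k → y ≠ .mx k → y ≤ .mx l) : l.val < 3 ∨ l.val < k.val := by
  by_contra hn
  have hne : k.val ≠ l.val := fun h => hkl (Fin.ext h)
  obtain ⟨f, hf⟩ := hD
  by_cases h2 : k.val ≤ 2
  · have := h (.w 1) (by simp; omega) (by simp)
    simp at this
    omega
  · by_cases h6 : k.val ≤ 6
    · have := h (.u ⟨k.val - 3, by omega⟩ 0) (by simp; omega) (by simp)
      simp at this
      omega
    · have := h (.r f hf) (by simp; omega) (by simp)
      simp at this
      omega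

/-- The standard situation at the root. -/
structure Std (V : ℕ → Pt D → Prop) : Prop where
  mono : Mono V
  nroot : ¬ force V MM .root
  nn : ∀ i : Fin 9, 3 ≤ i.val → ∀ y, force V (nn i) y ↔ ¬ y ≤ .mx i
  single : ∀ y, force V Single y ↔ ∃ k, y = .mx k
  low : ∀ y, force V zr.2 y ↔ ¬ (y ≤ .mx 0 ∧ y ≤ .mx 1 ∧ y ≤ .mx 2)

theorem std_of_DD (hD : ∃ f, D f) (hV : Mono V) (hM : ¬ force V MM .root)
    (hDD : force V DD .root) : Std V := by
  obtain ⟨τ, hτ⟩ := (permSem_of_not_MM hV hM).2
  simp only [DD, force_conj, List.mem_cons, List.not_mem_nil, or_false, forall_eq_or_imp,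
    forall_eq, hτ.prc] at hDD
  obtain ⟨h87, h76, h65, h54, h43, h30, h31, h32⟩ := hDD
  have ne : ∀ i j : Fin 9, i ≠ j → τ i ≠ τ j := fun i j h h' => h (τ.injective h')
  have ne' : ∀ i j : Fin 9, i ≠ j → (τ i).val ≠ (τ j).val :=
    fun i j h h' => ne i j h (Fin.ext h')
  have g87 := prc_order hD (ne _ _ (by decide)) h87
  have g76 := prc_order hD (ne _ _ (by decide)) h76
  have g65 := prc_order hD (ne _ _ (by decide)) h65
  have g54 := prc_order hD (ne _ _ (by decide)) h54
  have g43 := prc_order hD (ne _ _ (by decide)) h43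
  have g30 := prc_order hD (ne _ _ (by decide)) h30
  have g31 := prc_order hD (ne _ _ (by decide)) h31
  have g32 := prc_order hD (ne _ _ (by decide)) h32
  have n01 := ne' 0 1 (by decide)
  have n02 := ne' 0 2 (by decide)
  have n12 := ne' 1 2 (by decide)
  have n03 := ne' 0 3 (by decide)
  have n13 := ne' 1 3 (by decide)
  have n23 := ne' 2 3 (by decide)
  have b8 := (τ 8).2
  have e3 : 3 ≤ (τ 3).val := by omega
  have e : (τ 3).val = 3 ∧ (τ 4).val = 4 ∧ (τ 5).val = 5 ∧ (τ 6).val = 6 ∧ (τ 7).val = 7 ∧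
      (τ 8).val = 8 := by omega
  obtain ⟨e3, e4, e5, e6, e7, e8⟩ := e
  have hfix : ∀ i : Fin 9, 3 ≤ i.val → τ i = i := by
    intro i hi
    apply Fin.ext
    fin_cases i <;> simp at hi ⊢ <;> assumption
  refine ⟨hV, hM, fun i hi y => by rw [hτ i, hfix i hi], hτ.single, fun y => ?_⟩
  simp only [zr, force_or, hτ 0, hτ 1, hτ 2]
  have l0 : (τ 0).val < 3 := by omega
  have l1 : (τ 1).val < 3 := by omega
  have l2 : (τ 2).val < 3 := by omega
  have key : ∀ k : Fin 9, k.val < 3 → k = τ 0 ∨ k = τ 1 ∨ k = τ 2 := by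
    intro k hk
    simp only [Fin.ext_iff]
    omega
  have key2 : ∀ k : Fin 9, k.val < 3 → k = 0 ∨ k = 1 ∨ k = 2 := by
    intro k hk
    simp only [Fin.ext_iff]
    simp
    omega
  constructor
  · rintro h ⟨h0, h1, h2⟩
    have : ∀ k : Fin 9, k.val < 3 → y ≤ .mx k := by
      intro k hk
      rcases key2 k hk with rfl | rfl | rfl <;> assumption
    rcases h with h | h | h
    · exact h (this _ l0)
    · exact h (this _ l1)
    · exact h (this _ l2)
  · intro h
    by_contra hn
    push Not at hn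
    have : ∀ k : Fin 9, k.val < 3 → y ≤ .mx k := by
      intro k hk
      rcases key k hk with rfl | rfl | rfl
      · exact hn.1
      · exact hn.2.1
      · exact hn.2.2
    exact h ⟨this 0 (by decide), this 1 (by decide), this 2 (by decide)⟩

theorem DD_of_id (hτ : PermSem V 1) : force V DD .root := by
  simp only [DD, force_conj, List.mem_cons, List.not_mem_nil, or_false, forall_eq_or_imp,
    forall_eq, hτ.prc, Equiv.Perm.coe_one, id]
  refine ⟨?_, ?_, ?_, ?_, ?_, ?_, ?_, ?_⟩ <;> intro y h1 h2 <;> cases y <;> simp_all <;> omega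

theorem Std.toMM (h : Std V) (a : Fm) : force V (.imp a MM) .root ↔ ¬ force V a .root := by
  constructor
  · intro H ha
    exact h.nroot (H _ le_rfl ha)
  · intro H y _ ha
    by_cases hy : y = .root
    · subst hy
      exact absurd ha H
    · exact MM_of_ne h.mono hy

theorem Std.rel (h : Std V) (a b : Fm) (y : Pt D) : force V (rel a b) y ↔
    (∀ k, y ≤ .w k → force V a (.w k) → force V b (.w k)) ∧
    (∀ m : Fin 9, m ≠ 3 → y ≤ .mx m → force V a (.mx m) → force V b (.mx m)) := by
  simp only [MP_47f674_lc.rel, force_imp, force_and, h.nn 3 (by decide)]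
  constructor
  · intro H
    exact ⟨fun k hk ha => H _ hk ⟨by simp, ha⟩, fun m hm hy ha => H _ hy ⟨by simpa using hm, ha⟩⟩
  · rintro ⟨H1, H2⟩ x hx ⟨h3, ha⟩
    cases x with
    | mx i => exact H2 i (by simpa using h3) hx ha
    | w j => exact H1 j hx ha
    | u i j => simp at h3
    | r f h => simp at h3
    | root => simp at h3

theorem force_imp_w (a b : Fm) (k : ℕ) (hb : ∀ m : Fin 9, m ≠ 3 → force V b (.mx m)) :
    force V (.imp a b) (.w k) ↔
      ∀ l, (l = k ∨ l + 2 ≤ k) → force V a (.w l) → force V b (.w l) := by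
  constructor
  · intro H l hl
    exact H _ (by simpa using hl)
  · intro H x hx ha
    cases x with
    | mx i =>
      refine hb i ?_
      rintro rfl
      simp at hx
    | w j => exact H j (by simpa using hx) ha
    | u i j => simp at hx
    | r f h => simp at hx
    | root => simp at hx

structure Num (V : ℕ → Pt D → Prop) (j : ℕ) (v : Fm × Fm) : Prop where
  m1 : ∀ m : Fin 9, m ≠ 3 → force V v.1 (.mx m)
  m2 : ∀ m : Fin 9, m ≠ 3 → force V v.2 (.mx m)
  w1 : ∀ k, force V v.1 (.w k) ↔ k < j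
  w2 : ∀ k, force V v.2 (.w k) ↔ k ≤ j

theorem Std.num_zr (h : Std V) : Num V 0 zr := by
  refine ⟨fun m _ => (h.single _).2 ⟨m, rfl⟩, fun m _ => (h.low _).2 ?_, fun k => ?_, fun k => ?_⟩
  · simp only [le_mx_mx]
    rintro ⟨rfl, h1, -⟩
    exact absurd h1 (by decide)
  · show force V Single _ ↔ _
    simp [h.single]
  · rw [h.low]
    simp

theorem Num.sc {j : ℕ} {v : Fm × Fm} (h : Num V j v) : Num V (j + 1) (sc v) := by
  refine ⟨h.m2, fun m hm => Or.inl (h.m2 m hm), fun k => (h.w2 k).trans (by omega), fun k => ?_⟩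
  simp only [MP_47f674_lc.sc, force_or, force_imp_w _ _ _ h.m1, h.w1, h.w2]
  constructor
  · rintro (H | H)
    · omega
    · by_contra hn
      have := H j (by omega) le_rfl
      omega
  · intro H
    by_cases hk : k ≤ j
    · exact Or.inl hk
    · right
      intro l hl hlj
      omega

theorem Num.iter {j : ℕ} {v : Fm × Fm} (h : Num V j v) (c : ℕ) :
    Num V (j + c) (MP_47f674_lc.sc^[c] v) := by
  induction c with
  | zero => exact h
  | succ c ih =>
    rw [Function.iterate_succ_apply']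
    exact ih.sc

theorem Std.num (h : Std V) (j : ℕ) : Num V j (num j) := by
  have := h.num_zr.iter j
  rwa [zero_add] at this

theorem Std.good_of_num (h : Std V) {j : ℕ} {v : Fm × Fm} (hv : Num V j v) :
    force V (Good v) .root := by
  simp only [Good, force_conj, List.mem_cons, List.not_mem_nil, or_false, forall_eq_or_imp,
    forall_eq, h.toMM, h.rel, le_root_any, true_imp_iff, h.single]
  refine ⟨⟨by simp, fun m hm _ => hv.m1 m hm⟩, ⟨fun k => ?_, fun m hm _ => hv.m2 m hm⟩, ?_, ?_⟩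
  · rw [hv.w1, hv.w2]
    omega
  · rintro ⟨H, -⟩
    have := H (j + 1) (by
      rw [force_imp_w _ _ _ hv.m1]
      intro l hl
      rw [hv.w1, hv.w2]
      omega)
    rw [hv.w1] at this
    omega
  · rintro ⟨H, -⟩
    have := H (j + 2) (by
      rw [force_imp_w _ _ _ hv.m1]
      intro l hl
      rw [force_imp_w _ _ _ hv.m1, hv.w1]
      intro H'
      by_contra hn
      have := H' j (by omega) ((hv.w2 j).2 le_rfl)
      rw [hv.w1] at this
      omega)
    rw [hv.w2] at this
    omega

theorem Std.num_of_good (h : Std V) {v : Fm × Fm} (hv : force V (Good v) .root) :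
    ∃ j, Num V j v := by
  simp only [Good, force_conj, List.mem_cons, List.not_mem_nil, or_false, forall_eq_or_imp,
    forall_eq, h.toMM, h.rel, le_root_any, true_imp_iff, h.single] at hv
  obtain ⟨⟨-, g0⟩, ⟨g1, g1'⟩, g2, g3⟩ := hv
  have m1 : ∀ m : Fin 9, m ≠ 3 → force V v.1 (.mx m) := fun m hm => g0 m hm ⟨m, rfl⟩
  have m2 : ∀ m : Fin 9, m ≠ 3 → force V v.2 (.mx m) := fun m hm => g1' m hm (m1 m hm)
  have g2' : ∃ y, (∀ l, (l = y ∨ l + 2 ≤ y) → force V v.2 (.w l) → force V v.1 (.w l)) ∧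
      ¬ force V v.1 (.w y) := by
    by_contra hn
    push Not at hn
    refine g2 ⟨fun k hk => hn k ?_, fun m hm _ => m1 m hm⟩
    rwa [force_imp_w _ _ _ m1] at hk
  have g3' : ∃ z, (∀ k, (k = z ∨ k + 2 ≤ z) → (∀ l, (l = k ∨ l + 2 ≤ k) →
      force V v.2 (.w l) → force V v.1 (.w l)) → force V v.1 (.w k)) ∧
      ¬ force V v.2 (.w z) := by
    by_contra hn
    push Not at hn
    refine g3 ⟨fun k hk => hn k ?_, fun m hm _ => m2 m hm⟩
    rw [force_imp_w _ _ _ m1] at hk
    intro l hl H
    exact hk l hl ((force_imp_w _ _ _ m1).2 H)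
  obtain ⟨y, hy1, hy2⟩ := g2'
  obtain ⟨z, hz1, hz2⟩ := g3'
  have hex : ∃ j, ¬ force V v.1 (.w j) := ⟨y, hy2⟩
  let j := Nat.find hex
  have hj : ¬ force V v.1 (.w j) := Nat.find_spec hex
  have hlt : ∀ k, k < j → force V v.1 (.w k) := fun k hk => not_not.1 (Nat.find_min hex hk)
  have down1 : ∀ k l, l + 2 ≤ k → force V v.1 (.w k) → force V v.1 (.w l) :=
    fun k l hkl => force_mono h.mono _ (by simp [hkl])
  have down2 : ∀ k l, l + 2 ≤ k → force V v.2 (.w k) → force V v.2 (.w l) :=
    fun k l hkl => force_mono h.mono _ (by simp [hkl])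
  have hzj : j ≤ z := by
    by_contra hn
    exact hz2 (g1 z (hlt z (by omega)))
  have hyj : j ≤ y := by
    by_contra hn
    exact hy2 (hlt y (by omega))
  have hjQ : force V v.2 (.w j) := by
    by_contra hn
    by_cases hz : z = j + 1
    · refine hz2 (g1 z (hz1 z (Or.inl rfl) fun l hl hl2 => ?_))
      rcases hl with rfl | hl
      · exact absurd hl2 hz2
      · exact hlt l (by omega)
    · refine hj (hz1 j (by omega) fun l hl hl2 => ?_)
      rcases hl with rfl | hl
      · exact absurd hl2 hn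
      · exact hlt l (by omega)
  have hy : y = j + 1 := by
    by_contra hn
    exact hj (hy1 j (by omega) hjQ)
  subst hy
  have hj1Q : ¬ force V v.2 (.w (j + 1)) := fun H => hy2 (hy1 _ (Or.inl rfl) H)
  have hj2Q : ¬ force V v.2 (.w (j + 2)) := by
    intro H
    have hz' : z ≠ j := by
      rintro rfl
      exact hz2 hjQ
    have hz'' : z ≠ j + 2 := by
      rintro rfl
      exact hz2 H
    refine hy2 (hz1 (j + 1) (by omega) fun l hl hl2 => ?_)
    rcases hl with rfl | hl
    · exact absurd hl2 hj1Q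
    · exact hlt l (by omega)
  refine ⟨j, m1, m2, fun k => ⟨fun H => ?_, hlt k⟩, fun k => ⟨fun H => ?_, fun H => ?_⟩⟩
  · by_contra hn
    by_cases hk : k = j
    · exact hj (hk ▸ H)
    by_cases hk1 : k = j + 1
    · exact hy2 (hk1 ▸ H)
    exact hj (down1 k j (by omega) H)
  · by_contra hn
    by_cases hk1 : k = j + 1
    · exact hj1Q (hk1 ▸ H)
    by_cases hk2 : k = j + 2
    · exact hj2Q (hk2 ▸ H)
    exact hj1Q (down2 k (j + 1) (by omega) H)
  · rcases H.eq_or_lt with rfl | H
    · exact hjQ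
    · exact g1 k (hlt k H)

theorem Std.UU (h : Std V) {j : ℕ} {v : Fm × Fm} (hv : Num V j v) (i : Fin 4) (y : Pt D) :
    force V (UU i v) y ↔ ¬ y ≤ .u i j := by
  have hi := i.2
  simp only [MP_47f674_lc.UU, force_imp, force_and, force_or, h.rel,
    h.nn ⟨i.val + 4, by omega⟩ (by simp), h.nn ⟨i.val + 3, by omega⟩ (by simp), hv.w1, hv.w2,
    force_top, true_imp_iff]
  constructor
  · intro H hy
    rcases H _ hy ⟨by simp; omega, fun k hk => by simp at hk; omega,
      fun m hm _ => hv.m2 m hm⟩ with H | H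
    · simp at H
      omega
    · have := H.1 j (by simp) le_rfl
      omega
  · rintro H x hx ⟨h1, h2, -⟩
    by_contra hn
    rw [not_or, not_not] at hn
    obtain ⟨h3, h4⟩ := hn
    have h5 : x ≤ .w j := by
      by_contra h5
      refine h4 ⟨fun k hk hkj => ?_, fun m hm _ _ => hv.m1 m hm⟩
      rcases hkj.eq_or_lt with rfl | hkj
      · exact absurd hk h5
      · exact hkj
    cases x with
    | mx m => simp at h5
    | w l => simp at h3
    | u a l =>
      have := h2 l (by simp)
      simp at h1 h3 h5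
      have ha : a = i := Fin.ext (by omega)
      have hl : l = j := by omega
      subst ha hl
      exact H hx
    | r f hf => simp at h1; omega
    | root => simp at h1

theorem Std.fact (h : Std V) {f : Fin 4 → ℕ} {t : Fin 4 → Fm × Fm} (ht : ∀ i, Num V (f i) (t i)) :
    force V (Fact t) .root ↔ D f := by
  rw [Fact, h.toMM]
  simp only [RR, force_imp, le_root_any, true_imp_iff, h.nn 8 (by decide), force_disj,
    List.mem_map, List.mem_finRange, true_and, exists_exists_eq_and, h.UU (ht _)]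
  push Not
  constructor
  · rintro ⟨x, h1, h2⟩
    have h20 := h2 0
    have h21 := h2 1
    cases x with
    | mx m => simp at h20
    | w l => simp at h20
    | u a l =>
      simp only [le_u_u] at h20 h21
      have := h20.1.symm.trans h21.1
      exact absurd this (by decide)
    | r g hg =>
      have : g = f := funext fun i => by simpa using h2 i
      exact this ▸ hg
    | root => simp at h1
  · intro hf
    exact ⟨.r f hf, by simp, fun i => by simp⟩

theorem valid_rule (hD : ∃ f, D f) (hV : Mono V) {Γ : List Fm} {b : Fm}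
    (h : Std V → (∀ a ∈ Γ, force V a .root) → force V b .root) (y : Pt D) :
    force V (ruleFm Γ b) y := by
  rw [force_ruleFm]
  intro x _ hDD hΓ
  by_cases hM : force V MM x
  · exact Or.inr hM
  · obtain rfl := (permSem_of_not_MM hV hM).1
    exact Or.inl (h (std_of_DD hD hV hM hDD) hΓ)

theorem valid_Rig (hV : Mono V) (y : Pt D) : force V Rig y := by
  by_cases hM : force V MM y
  · exact Or.inl hM
  · obtain ⟨rfl, τ, hτ⟩ := permSem_of_not_MM hV hM
    right
    simp only [force_disj, List.mem_map, Finset.mem_toList, Finset.mem_univ, true_and]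
    refine ⟨_, ⟨τ.symm, rfl⟩, ?_⟩
    rw [force_subst]
    refine DD_of_id fun i x => ?_
    rw [force_ren_nn, hτ]
    simp

theorem valid_AF (hV : Mono V) (y : Pt D) : force V AF y := by
  refine AF_of_MM fun x _ _ => ?_
  by_cases hM : force V MM x
  · exact Or.inl hM
  · obtain ⟨rfl, τ, hτ⟩ := permSem_of_not_MM hV hM
    right
    intro hA
    simp only [afAnte, force_conj, List.mem_map, List.mem_finRange, true_and] at hA
    have := hA _ ⟨τ.symm 8, rfl⟩ (.w 0) (by simp) (by rw [hτ]; simp)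
    rw [hτ.single] at this
    simp at this

theorem mem_atomVars {a : Atom} {i : Fin 4} {n c : ℕ} (h : a i = (some n, c)) :
    n ∈ atomVars a := by
  simp only [atomVars, List.mem_filterMap, List.mem_finRange, true_and]
  exact ⟨i, by rw [h]⟩

theorem valid_AA {P : List Clause} {H n : ℕ} {V : ℕ → Pt (Der P) → Prop} (hD : ∃ f, Der P f)
    (hn : ¬ Der P ![H, n, 0, 0]) (hV : Mono V) (y : Pt (Der P)) : force V (AA P H n) y := by
  refine ⟨?_, valid_rule hD hV (fun h hΓ => ?_) y⟩
  · simp only [Base, force_conj, List.mem_append, List.mem_cons, List.mem_map, List.not_mem_nil,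
      or_false]
    rintro a ((rfl | rfl | rfl | rfl) | ⟨c, hc, rfl⟩)
    · exact valid_Rig hV y
    · exact valid_AF hV y
    · exact valid_rule hD hV (fun h _ => h.good_of_num h.num_zr) y
    · refine valid_rule hD hV (fun h hΓ => ?_) y
      obtain ⟨j, hj⟩ := h.num_of_good (hΓ _ List.mem_cons_self)
      exact h.good_of_num hj.sc
    · refine valid_rule hD hV (fun h hΓ => ?_) y
      have h1 : ∀ i, ∃ j, i ∈ clauseVars c → Num V j (vv i) := by
        intro i
        by_cases hi : i ∈ clauseVars c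
        · obtain ⟨j, hj⟩ := h.num_of_good
            (hΓ (Good (vv i)) (List.mem_append_left _ (List.mem_map_of_mem hi)))
          exact ⟨j, fun _ => hj⟩
        · exact ⟨0, fun h => absurd h hi⟩
      choose ρ hρ using h1
      have h2 : ∀ a ∈ c.2 :: c.1, force V (atomFm a) .root ↔ Der P (a.ev ρ) := by
        intro a ha
        refine h.fact fun i => ?_
        show Num V ((a i).ev ρ) (tmFm (a i))
        rcases hai : a i with ⟨_ | m, d⟩
        · exact h.num d
        · exact (hρ m (List.mem_flatMap.2 ⟨a, ha, mem_atomVars hai⟩)).iter d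
      rw [h2 _ List.mem_cons_self]
      refine Der.intro c hc ρ fun a ha => ?_
      rw [← h2 a (List.mem_cons_of_mem _ ha)]
      exact hΓ _ (List.mem_append_right _ (List.mem_map_of_mem ha))
  · have := hΓ _ List.mem_cons_self
    rw [goal_eq] at this
    exact hn ((h.fact fun i => h.num _).1 this)

def stdV : ℕ → Pt D → Prop := fun n y => ∃ h : n < 9, y = .mx ⟨n, h⟩

theorem stdV_mono : Mono (stdV (D := D)) := by
  rintro n x y hxy ⟨h, rfl⟩
  exact ⟨h, mx_le hxy⟩

theorem stdV_perm : PermSem (stdV (D := D)) 1 := by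
  have hE : ∀ (i : Fin 9) (x : Pt D), force stdV (EE i) x ↔ x = .mx i := by
    intro i x
    rw [force_EE]
    constructor
    · rintro ⟨⟨_, h⟩, -⟩
      exact h
    · rintro rfl
      refine ⟨⟨i.2, rfl⟩, fun j hj x hx ⟨_, h⟩ => hj ?_⟩
      rw [mx_le hx] at h
      cases h
      rfl
  intro i y
  simp only [force_nn, hE, Equiv.Perm.coe_one, id]
  exact ⟨fun H hy => H _ hy rfl, fun H x hx hx' => H (hx' ▸ hx)⟩

def vsub : ℕ → Fm := fun n =>
  if n % 3 = 0 then (if h : n / 3 - 1 < 9 then nn ⟨n / 3 - 1, h⟩ else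
    if n = 30 then nn 0 else nn 1) else if n % 3 = 1 then Single else .bot

theorem vsub_ante : (vAnte 9).subst vsub = afAnte := rfl

theorem not_admits {P : List Clause} {H n : ℕ} (hD : ∃ f, Der P f)
    (hn : ¬ Der P ![H, n, 0, 0]) : ¬ Admissible (Logic (AA P H n)) [vPrem 9] (vConc 9) := by
  intro h
  have h1 : (vConc 9).subst vsub ∈ Logic (AA P H n) := by
    refine h vsub fun C hC => ?_
    rw [List.mem_singleton.1 hC]
    refine completeness fun W _ V hV w hw => ?_
    have h0 := hw _ ⟨Fm.var, rfl⟩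
    rw [subst_var] at h0
    have hAF : force V AF w := by
      have := h0.1
      simp only [Base, force_conj] at this
      exact this _ (by simp)
    left
    exact hAF
  have h2 : force (stdV (D := Der P)) ((vConc 9).subst vsub) .root := by
    refine soundness stdV_mono ?_ h1
    rintro _ ⟨σ, rfl⟩
    rw [force_subst]
    exact valid_AA hD hn (mono_subst stdV_mono σ) _
  have key : ∀ k : Fin 9, ¬ force (stdV (D := Der P)) (.imp afAnte (nn k)) .root := by
    intro k H
    have := H (.mx k) (by simp) (by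
      simp only [afAnte, force_conj, List.mem_map, List.mem_finRange, true_and]
      rintro _ ⟨i, rfl⟩
      rw [force_imp_mx]
      intro _
      exact (stdV_perm.single _).2 ⟨k, rfl⟩)
    rw [stdV_perm] at this
    simp at this
  simp only [vConc, Fm.subst, force_or, subst_disj, force_disj, List.map_map, List.mem_map,
    List.mem_range, Function.comp, vsub_ante] at h2
  rcases h2 with ⟨_, ⟨j, hj, rfl⟩, h2⟩ | h2
  · have : ∃ k, (vp (j + 1)).subst vsub = nn k := by
      simp only [vp, Fm.subst, vsub]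
      rw [if_pos (by omega)]
      split_ifs <;> exact ⟨_, rfl⟩
    obtain ⟨k, hk⟩ := this
    rw [hk] at h2
    exact key k h2
  · exact h2

end Pool.Agent.Lib.MP_47f674_lc
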