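import Pool.Agent.Lib.MP_47f674_lc.Kripke

namespace Pool.Agent.Lib.MP_47f674_lc

open Classical

/-- The formula saying that all types realised above a point lie in `X`. -/
noncomputable def charFm (S : Finset Fm) (X : Set (Finset Fm)) : Fm :=
  conj ((S.powerset.filter (fun t => t ∉ X)).toList.map
    (fun t => Fm.imp (conj t.toList) (disj (S \ t).toList)))

theorem force_charFm {W : Type} [Preorder W] (V : ℕ → W → Prop) (S : Finset Fm)
    (X : Set (Finset Fm)) (w : W) :
    force V (charFm S X) w ↔ ∀ u, w ≤ u → typ S V u ∈ X := by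
  simp only [charFm, force_conj, List.mem_map, Finset.mem_toList, Finset.mem_filter,
    Finset.mem_powerset]
  constructor
  · intro h u hu
    by_contra hn
    have := h _ ⟨typ S V u, ⟨Finset.filter_subset _ _, hn⟩, rfl⟩ u hu (by
      simp only [force_conj, Finset.mem_toList]
      intro a ha
      exact (Finset.mem_filter.1 ha).2)
    simp only [force_disj, Finset.mem_toList, Finset.mem_sdiff] at this
    obtain ⟨a, ⟨ha, hna⟩, hf⟩ := this
    exact hna (Finset.mem_filter.2 ⟨ha, hf⟩)
  · rintro h _ ⟨t, ⟨ht, hn⟩, rfl⟩ u hu hc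
    simp only [force_conj, Finset.mem_toList] at hc
    simp only [force_disj, Finset.mem_toList, Finset.mem_sdiff]
    by_contra hno
    push Not at hno
    apply hn
    have : t = typ S V u := by
      ext a
      simp only [typ, Finset.mem_filter]
      constructor
      · intro ha
        exact ⟨ht ha, hc a ha⟩
      · rintro ⟨ha, hf⟩
        by_contra hna
        exact hno a ⟨ha, hna⟩ hf
    rw [this]
    exact h u hu

/-- Loewenheim substitution -/
noncomputable def low (C : Fm) (a : Finset ℕ) : ℕ → Fm :=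
  fun p => if p ∈ a then Fm.imp C (.var p) else Fm.and C (.var p)

def step {W : Type} [Preorder W] (C : Fm) (a : Finset ℕ) (V : ℕ → W → Prop) : ℕ → W → Prop :=
  fun p => force V (low C a p)

def act {W : Type} [Preorder W] (C : Fm) : List (Finset ℕ) → (ℕ → W → Prop) → ℕ → W → Prop
  | [], V => V
  | a :: l, V => act C l (step C a V)

noncomputable def theta (C : Fm) : List (Finset ℕ) → ℕ → Fm
  | [] => Fm.var
  | a :: l => fun p => (theta C l p).subst (low C a)

theorem force_theta {W : Type} [Preorder W] (C : Fm) : ∀ (l : List (Finset ℕ))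
    (V : ℕ → W → Prop) (φ : Fm) (w : W),
    force V (φ.subst (theta C l)) w ↔ force (act C l V) φ w
  | [], V, φ, w => by simp [theta, act, subst_var]
  | a :: l, V, φ, w => by
      rw [act, ← force_theta C l (step C a V) φ w, force_subst, force_subst]
      refine force_congr φ w fun u _ n => ?_
      simp only [theta]
      rw [force_subst]
      rfl

section
variable {W : Type} [Preorder W] {C : Fm}

theorem step_mono {V : ℕ → W → Prop} (hV : Mono V) (a : Finset ℕ) : Mono (step C a V) :=
  mono_subst hV _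

theorem act_mono : ∀ (l : List (Finset ℕ)) {V : ℕ → W → Prop}, Mono V → Mono (act C l V)
  | [], _, h => h
  | a :: l, _, h => act_mono l (step_mono h a)

theorem step_eq {V : ℕ → W → Prop} (hV : Mono V) (a : Finset ℕ) {u : W} (hu : force V C u)
    (p : ℕ) : step C a V p u ↔ V p u := by
  unfold step low
  split_ifs
  · exact ⟨fun h => h u le_rfl hu, fun h v hv _ => hV p _ _ hv h⟩
  · exact ⟨fun h => h.2, fun h => ⟨hu, h⟩⟩

theorem step_force {V : ℕ → W → Prop} (hV : Mono V) (a : Finset ℕ) {u : W} (hu : force V C u)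
    (φ : Fm) : force (step C a V) φ u ↔ force V φ u :=
  force_congr φ u fun _ hv p => step_eq hV a (force_mono hV C hv hu) p

theorem act_force : ∀ (l : List (Finset ℕ)) {V : ℕ → W → Prop}, Mono V → ∀ {u : W},
    force V C u → ∀ φ : Fm, (force (act C l V) φ u ↔ force V φ u)
  | [], _, _, _, _, _ => Iff.rfl
  | a :: l, V, hV, u, hu, φ => by
      rw [act, act_force l (step_mono hV a) ((step_force hV a hu C).2 hu), step_force hV a hu]

end

/-- `v` is a valuation for the point `w` which puts the type of `w` into `X`. -/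
def Ext {W : Type} [PartialOrder W] (S : Finset Fm) (X : Set (Finset Fm)) (V : ℕ → W → Prop)
    (w : W) (v : Finset ℕ) : Prop :=
  (∀ p ∈ v, Fm.var p ∈ S) ∧ (∀ u, w < u → ∀ p ∈ v, V p u) ∧
    ∀ V' : ℕ → W → Prop, (∀ u, w < u → ∀ p, V' p u ↔ V p u) →
      (∀ p, Fm.var p ∈ S → (V' p w ↔ p ∈ v)) → typ S V' w ∈ X

def ExtProp (S : Finset Fm) (X : Set (Finset Fm)) : Prop :=
  ∀ (W : Type) [PartialOrder W] (V : ℕ → W → Prop), Mono V → ∀ w : W,
    (∀ u, w < u → typ S V u ∈ X) → ∃ v, Ext S X V w v

def GoodL : List (Finset ℕ) → Prop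
  | [] => True
  | a :: l => (∀ v, v ⊂ a → v ∈ l) ∧ GoodL l

section
variable {W : Type} [PartialOrder W] {S : Finset Fm} {X : Set (Finset Fm)}

theorem force_char_of {V : ℕ → W → Prop} {w : W}
    (h1 : ∀ u, w < u → force V (charFm S X) u) (h2 : typ S V w ∈ X) :
    force V (charFm S X) w := by
  rw [force_charFm]
  intro u hu
  rcases hu.eq_or_lt with rfl | hu
  · exact h2
  · exact (force_charFm V S X u).1 (h1 u hu) u le_rfl

theorem Ext.congr {V V' : ℕ → W → Prop} {w : W} {v : Finset ℕ} (h : Ext S X V w v)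
    (hV : ∀ u, w < u → ∀ p, V' p u ↔ V p u) : Ext S X V' w v :=
  ⟨h.1, fun u hu p hp => (hV u hu p).2 (h.2.1 u hu p hp),
    fun V'' h1 h2 => h.2.2 V'' (fun u hu p => (h1 u hu p).trans (hV u hu p)) h2⟩

/-- one step with the right set repairs the point -/
theorem step_fix {V : ℕ → W → Prop} (hV : Mono V) {w : W} {a : Finset ℕ}
    (hw : ¬ force V (charFm S X) w)
    (h1 : ∀ u, w < u → force (step (charFm S X) a V) (charFm S X) u)
    (h2 : Ext S X (step (charFm S X) a V) w a) :
    force (step (charFm S X) a V) (charFm S X) w := by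
  refine force_char_of h1 (h2.2.2 _ (fun _ _ _ => Iff.rfl) fun p _ => ?_)
  unfold step low
  split_ifs with hp
  · simp only [hp, iff_true]
    intro u hu hc
    rcases hu.eq_or_lt with rfl | hu
    · exact absurd hc hw
    · exact (step_eq hV a hc p).1 (h2.2.1 u hu p hp)
  · simp only [hp, iff_false]
    exact fun h => hw h.1

theorem stage : ∀ (l : List (Finset ℕ)) {V : ℕ → W → Prop}, Mono V → ∀ {w : W} {v : Finset ℕ},
    (∀ u, w < u → force V (charFm S X) u) → Ext S X V w v → v ∈ l →
    force (act (charFm S X) l V) (charFm S X) w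
  | [], _, _, _, _, _, _, h => by simp at h
  | a :: l, V, hV, w, v, h1, h2, h3 => by
      by_cases hw : force V (charFm S X) w
      · exact (act_force _ hV hw _).2 hw
      have h1' : ∀ u, w < u → force (step (charFm S X) a V) (charFm S X) u :=
        fun u hu => (step_force hV a (h1 u hu) _).2 (h1 u hu)
      have h2' : Ext S X (step (charFm S X) a V) w v :=
        h2.congr fun u hu p => step_eq hV a (h1 u hu) p
      rcases List.mem_cons.1 h3 with rfl | h3
      · have := step_fix hV hw h1' h2'
        exact (act_force l (step_mono hV _) this _).2 this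
      · exact stage l (step_mono hV a) h1' h2' h3

theorem main_point (hE : ExtProp S X) : ∀ (l : List (Finset ℕ)), GoodL l →
    ∀ {V : ℕ → W → Prop}, Mono V → ∀ {w : W},
    ((∀ u, w < u → force V (charFm S X) u) → ∀ v, Ext S X V w v →
      v ∈ l ∨ force V (charFm S X) w) →
    (∀ u, w < u → force (act (charFm S X) l V) (charFm S X) u) →
    force (act (charFm S X) l V) (charFm S X) w
  | [], _, V, hV, w, H, hf => by
      obtain ⟨v, hv⟩ := hE W V hV w fun u hu => (force_charFm V S X u).1 (hf u hu) u le_rfl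
      rcases H hf v hv with h | h
      · simp at h
      · exact h
  | a :: l, hl, V, hV, w, H, hf => by
      by_cases h1 : ∀ u, w < u → force V (charFm S X) u
      · obtain ⟨v, hv⟩ := hE W V hV w fun u hu => (force_charFm V S X u).1 (h1 u hu) u le_rfl
        rcases H h1 v hv with h | h
        · exact stage _ hV h1 hv h
        · exact (act_force _ hV h _).2 h
      · push Not at h1
        obtain ⟨y, hy, hny⟩ := h1
        refine main_point hE l hl.2 (step_mono hV a) (fun h1' v hv => ?_) hf
        have hva : v ⊆ a := by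
          intro p hp
          have := hv.2.1 y hy p hp
          by_contra hpa
          unfold step low at this
          rw [if_neg hpa] at this
          exact hny this.1
        rcases hva.eq_or_ssubset with rfl | hva
        · right
          exact step_fix hV (fun h => hny (force_mono hV _ hy.le h)) h1' hv
        · left
          exact hl.1 v hva

end

theorem goodL_of_sorted : ∀ (l : List (Finset ℕ)),
    l.Pairwise (fun a b => b.card ≤ a.card) → (∀ a ∈ l, ∀ v, v ⊂ a → v ∈ l) → GoodL l
  | [], _, _ => trivial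
  | a :: l, hs, h => by
      rw [List.pairwise_cons] at hs
      refine ⟨fun v hv => ?_, goodL_of_sorted l hs.2 fun b hb v hv => ?_⟩
      · rcases List.mem_cons.1 (h a List.mem_cons_self v hv) with rfl | h'
        · exact absurd hv (lt_irrefl _)
        · exact h'
      · rcases List.mem_cons.1 (h b (List.mem_cons_of_mem _ hb) v hv) with rfl | h'
        · have := hs.1 b hb
          have := Finset.card_lt_card hv
          omega
        · exact h'

theorem exists_goodL (At : Finset ℕ) : ∃ l : List (Finset ℕ), GoodL l ∧ ∀ v, v ⊆ At → v ∈ l := by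
  refine ⟨At.powerset.toList.mergeSort (fun a b => decide (b.card ≤ a.card)),
    goodL_of_sorted _ ?_ ?_, ?_⟩
  · have := List.pairwise_mergeSort (le := fun a b : Finset ℕ => decide (b.card ≤ a.card))
      (fun a b c h1 h2 => by simp at h1 h2 ⊢; omega) (fun a b => by simp; omega)
      At.powerset.toList
    simpa using this
  · intro a ha v hv
    simp only [List.mem_mergeSort, Finset.mem_toList, Finset.mem_powerset] at ha ⊢
    exact hv.subset.trans ha
  · intro v hv
    simpa using hv

theorem exists_atoms (S : Finset Fm) : ∃ At : Finset ℕ, ∀ p, p ∈ At ↔ Fm.var p ∈ S := by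
  refine ⟨S.preimage Fm.var (fun a _ b _ h => by cases h; rfl), fun p => by simp⟩

/-- Ghilardi: a formula with the extension property is projective. -/
theorem projective {S : Finset Fm} {X : Set (Finset Fm)} (hE : ExtProp S X) :
    ∃ θ : ℕ → Fm, Deriv ∅ ((charFm S X).subst θ) ∧
      ∀ (W : Type) [Preorder W] (V : ℕ → W → Prop), Mono V → ∀ w : W,
        force V (charFm S X) w → ∀ φ : Fm, (force V (φ.subst θ) w ↔ force V φ w) := by
  obtain ⟨At, hAt⟩ := exists_atoms S
  obtain ⟨l, hl, hall⟩ := exists_goodL At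
  refine ⟨theta (charFm S X) l, completeness_fin fun W _ _ V hV w => ?_,
    fun W _ V hV w hw φ => ?_⟩
  · rw [force_theta]
    induction w using WellFoundedGT.induction with
    | ind w ih =>
      exact main_point hE l hl hV (fun _ v hv => Or.inl (hall v fun p hp =>
        (hAt p).2 (hv.1 p hp))) ih
  · rw [force_theta, act_force l hV hw]

/-- sets of formulas whose membership in a prime theory only depends on its negated formulas -/
def NegDet (X : Set Fm) : Prop :=
  ∀ x y : PT, X ⊆ x.T → (∀ F, neg F ∈ x.T → neg F ∈ y.T) → X ⊆ y.T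

theorem ext_of_family {S : Finset Fm} (hS : SubCl S) (σ : ℕ → Fm) (Y : Set PT)
    (hY : ∀ F : Set PT, F ⊆ Y → ∃ z ∈ Y, (∀ y ∈ F, z ≤ y) ∧ ∀ a b : Fm,
      (Fm.imp a b ∈ z.T ↔ (∀ y ∈ F, Fm.imp a b ∈ y.T) ∧ (a ∈ z.T → b ∈ z.T))) :
    ExtProp S {t | ∃ y ∈ Y, t = S.filter (fun a => a.subst σ ∈ y.T)} := by
  intro W _ V hV w hw
  obtain ⟨At, hAt⟩ := exists_atoms S
  obtain ⟨z, hzY, hz1, hz2⟩ := hY {y | y ∈ Y ∧ ∃ u, w < u ∧
    typ S V u = S.filter (fun a => a.subst σ ∈ y.T)} (fun y hy => hy.1)
  have key : ∀ u, w < u → ∀ a ∈ S, a.subst σ ∈ z.T → force V a u := by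
    intro u hu a ha haz
    obtain ⟨y, hy, hyu⟩ := hw u hu
    have h1 : a ∈ typ S V u := by
      rw [hyu]
      exact Finset.mem_filter.2 ⟨ha, hz1 y ⟨hy, u, hu, hyu⟩ haz⟩
    exact (Finset.mem_filter.1 h1).2
  refine ⟨At.filter (fun p => σ p ∈ z.T), fun p hp => (hAt p).1 (Finset.mem_filter.1 hp).1,
    fun u hu p hp => key u hu (.var p) ((hAt p).1 (Finset.mem_filter.1 hp).1)
      (Finset.mem_filter.1 hp).2, fun V' h1 h2 => ⟨z, hzY, ?_⟩⟩
  have hup : ∀ u, w < u → ∀ a : Fm, (force V' a u ↔ force V a u) := fun u hu a =>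
    force_congr a u fun v hv p => h1 v (lt_of_lt_of_le hu hv) p
  have main : ∀ a : Fm, a ∈ S → (force V' a w ↔ a.subst σ ∈ z.T) := by
    intro a
    induction a with
    | var p =>
      intro ha
      rw [force_var, h2 p ha]
      simp [Fm.subst, (hAt p).2 ha]
    | bot => intro _; exact ⟨False.elim, z.cons⟩
    | and a b iha ihb =>
      intro h
      rw [force_and, iha (hS.and h).1, ihb (hS.and h).2, Fm.subst, z.and_iff]
    | or a b iha ihb =>
      intro h
      rw [force_or, iha (hS.or h).1, ihb (hS.or h).2, Fm.subst, z.or_iff]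
    | imp a b iha ihb =>
      intro h
      rw [Fm.subst, hz2, ← iha (hS.imp h).1, ← ihb (hS.imp h).2]
      constructor
      · intro H
        refine ⟨?_, H w le_rfl⟩
        rintro y ⟨hy, u, hu, hyu⟩
        have h3 : Fm.imp a b ∈ typ S V u := by
          refine Finset.mem_filter.2 ⟨h, (hup u hu _).1 ?_⟩
          exact fun v hv => H v (hu.le.trans hv)
        rw [hyu] at h3
        exact (Finset.mem_filter.1 h3).2
      · rintro ⟨H1, H2⟩ u hu
        rcases hu.eq_or_lt with rfl | hu
        · exact H2
        · obtain ⟨y, hy, hyu⟩ := hw u hu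
          have h3 : Fm.imp a b ∈ typ S V u := by
            rw [hyu]
            exact Finset.mem_filter.2 ⟨h, H1 y ⟨hy, u, hu, hyu⟩⟩
          exact (hup u hu _).2 (Finset.mem_filter.1 h3).2 u le_rfl
  ext a
  simp only [typ, Finset.mem_filter]
  exact and_congr_right (main a)

noncomputable def subL : List Fm → Finset Fm
  | [] => ∅
  | a :: l => a.sub ∪ subL l

theorem subCl_subL : ∀ l : List Fm, SubCl (subL l)
  | [] => by constructor <;> simp [subL]
  | a :: l => (subCl_sub a).union (subCl_subL l)

theorem mem_subL : ∀ (l : List Fm) (a : Fm), a ∈ l → a ∈ subL l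
  | [], _, h => by simp at h
  | b :: l, a, h => by
      rcases List.mem_cons.1 h with rfl | h
      · exact Finset.mem_union_left _ (self_mem_sub _)
      · exact Finset.mem_union_right _ (mem_subL l a h)

theorem admits_of_negDet {X : Set Fm} (hX : NegDet X) {Γ : List Fm} {B : Fm}
    (h : Admissible IPC Γ B) : Admissible {b | Deriv X b} Γ B := by
  intro σ hΓ
  by_contra hB
  obtain ⟨x, hx, hBx⟩ := exists_pt (X := X) (b := B.subst σ) hB
  let Y : Set PT := {y | ∀ F, neg F ∈ x.T → neg F ∈ y.T}
  have hXx : X ⊆ x.T := fun c hc => hx c (Deriv.hyp hc)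
  have hYL : ∀ y ∈ Y, ∀ c, Deriv X c → c ∈ y.T := fun y hy c hc =>
    y.th.deriv (hX x y hXx hy) hc
  let S := subL (B :: Γ)
  have hS : SubCl S := subCl_subL _
  have hE := ext_of_family hS σ Y (by
    intro F hF
    rcases F.eq_empty_or_nonempty with rfl | ⟨y0, hy0⟩
    · obtain ⟨z, hz, -, hz2⟩ := lindenbaum x.th x.cons
      refine ⟨z, fun F hF => hz hF, by simp, fun a b => ⟨fun h => ⟨by simp, z.th.mp h⟩, ?_⟩⟩
      rintro ⟨-, h⟩
      by_cases ha : a ∈ z.T
      · exact z.th.weak a (h ha)
      · exact (z.th.ext a).mp ((z.th.ext a).ax (IPCAx.efq b)) (hz2 a ha)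
    · refine ⟨slashPT F, fun G hG => ⟨fun y hy => hF hy G hG, fun hs => ?_⟩,
        fun y hy => slashPT_le F hy, fun a b => slashPT_imp F a b⟩
      exact y0.cons (y0.th.mp (hF hy0 G hG) (slash_sub F G hs y0 hy0)))
  obtain ⟨θ, hθ1, hθ2⟩ := projective hE
  set XT : Set (Finset Fm) := {t | ∃ y ∈ Y, t = S.filter (fun a => a.subst σ ∈ y.T)} with hXT
  have hBθ : B.subst θ ∈ IPC := by
    refine h θ fun C hC => ?_
    refine completeness fun W _ V hV w _ => ?_
    have h1 : force V ((charFm S XT).subst θ) w := soundness hV (by simp) hθ1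
    rw [force_subst] at h1 ⊢
    obtain ⟨y, hy, hyt⟩ := (force_charFm _ S XT w).1 h1 w le_rfl
    have hCS : C ∈ S := mem_subL _ _ (List.mem_cons_of_mem _ hC)
    have : C ∈ typ S (fun n => force V (θ n)) w := by
      rw [hyt]
      exact Finset.mem_filter.2 ⟨hCS, hYL y hy _ (hΓ C hC)⟩
    exact (Finset.mem_filter.1 this).2
  let V : ℕ → PT → Prop := fun n => force canV (σ n)
  have hV : Mono V := mono_subst canV_mono σ
  have hxC : force V (charFm S XT) x := by
    rw [force_charFm]
    intro u hu
    refine ⟨u, fun F hF => hu hF, ?_⟩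
    ext a
    simp only [typ, Finset.mem_filter]
    rw [← force_subst, truth]
  have h2 : force V (B.subst θ) x := soundness hV (by simp) hBθ
  rw [hθ2 PT V hV x hxC, ← force_subst, truth] at h2
  exact hBx h2

end Pool.Agent.Lib.MP_47f674_lc
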