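import Pool.Agent.Lib.MP_47f674_lc.Axioms

namespace Pool.Agent.Lib.MP_47f674_lc

open Nat.Partrec Nat.Partrec.Code

def sE (c : Code) : ℕ := Encodable.encode c + 5

theorem sE_inj {c d : Code} (h : sE c = sE d) : c = d :=
  Encodable.encode_injective (Nat.add_right_cancel h)

def mk (s : ℕ) (x y z : Tm) : Atom := ![(none, s), x, y, z]
def X (i : ℕ) : Tm := (some i, 0)
def S (i : ℕ) : Tm := (some i, 1)
def Z : Tm := (none, 0)

@[simp] theorem ev_mk (ρ : ℕ → ℕ) (s : ℕ) (x y z : Tm) :
    (mk s x y z).ev ρ = ![s, x.ev ρ, y.ev ρ, z.ev ρ] := by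
  funext i
  fin_cases i <;> rfl
@[simp] theorem ev_X (ρ : ℕ → ℕ) (i : ℕ) : (X i).ev ρ = ρ i := rfl
@[simp] theorem ev_S (ρ : ℕ → ℕ) (i : ℕ) : (S i).ev ρ = ρ i + 1 := rfl
@[simp] theorem ev_Z (ρ : ℕ → ℕ) : Z.ev ρ = 0 := rfl

def cAdd0 : Clause := ([], mk 0 (X 0) Z (X 0))
def cAddS : Clause := ([mk 0 (X 0) (X 1) (X 2)], mk 0 (X 0) (S 1) (S 2))
def cMul0 : Clause := ([], mk 1 (X 0) Z Z)
def cMulS : Clause := ([mk 1 (X 0) (X 1) (X 2), mk 0 (X 2) (X 0) (X 3)], mk 1 (X 0) (S 1) (X 3))
def cLt : Clause := ([mk 0 (X 0) (X 1) (X 2)], mk 2 (X 0) (S 2) Z)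
def cPair1 : Clause := ([mk 2 (X 0) (X 1) Z, mk 1 (X 1) (X 1) (X 2), mk 0 (X 2) (X 0) (X 3)],
  mk 3 (X 0) (X 1) (X 3))
def cPair2 : Clause := ([mk 2 (X 1) (S 0) Z, mk 1 (X 0) (X 0) (X 2), mk 0 (X 2) (X 0) (X 3),
  mk 0 (X 3) (X 1) (X 4)], mk 3 (X 0) (X 1) (X 4))
def cHalt (u : Code) : Clause := ([mk (sE u) (X 0) (X 1) Z], mk 4 (X 0) Z Z)

def own : Code → List Clause
  | .zero => [([], mk (sE .zero) (X 0) Z Z)]
  | .succ => [([], mk (sE .succ) (X 0) (S 0) Z)]
  | .left => [([mk 3 (X 0) (X 1) (X 2)], mk (sE .left) (X 2) (X 0) Z)]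
  | .right => [([mk 3 (X 0) (X 1) (X 2)], mk (sE .right) (X 2) (X 1) Z)]
  | .pair f g => [([mk (sE f) (X 0) (X 1) Z, mk (sE g) (X 0) (X 2) Z, mk 3 (X 1) (X 2) (X 3)],
      mk (sE (.pair f g)) (X 0) (X 3) Z)]
  | .comp f g => [([mk (sE g) (X 0) (X 1) Z, mk (sE f) (X 1) (X 2) Z],
      mk (sE (.comp f g)) (X 0) (X 2) Z)]
  | .prec f g => [([mk 3 (X 0) Z (X 1), mk (sE f) (X 0) (X 2) Z],
        mk (sE (.prec f g)) (X 1) (X 2) Z),
      ([mk 3 (X 0) (X 1) (X 2), mk (sE (.prec f g)) (X 2) (X 3) Z, mk 3 (X 1) (X 3) (X 4),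
        mk 3 (X 0) (X 4) (X 5), mk (sE g) (X 5) (X 6) Z, mk 3 (X 0) (S 1) (X 7)],
        mk (sE (.prec f g)) (X 7) (X 6) Z)]
  | .rfind' f => [([mk 3 (X 0) (X 1) (X 2), mk (sE f) (X 2) Z Z],
        mk (sE (.rfind' f)) (X 2) (X 1) Z),
      ([mk 3 (X 0) (X 1) (X 2), mk (sE f) (X 2) (S 3) Z, mk 3 (X 0) (S 1) (X 4),
        mk (sE (.rfind' f)) (X 4) (X 5) Z], mk (sE (.rfind' f)) (X 2) (X 5) Z)]

def prog : Code → List Clause
  | .zero => own .zero
  | .succ => own .succ
  | .left => own .left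
  | .right => own .right
  | .pair f g => own (.pair f g) ++ (prog f ++ prog g)
  | .comp f g => own (.comp f g) ++ (prog f ++ prog g)
  | .prec f g => own (.prec f g) ++ (prog f ++ prog g)
  | .rfind' f => own (.rfind' f) ++ prog f

def base : List Clause := [cAdd0, cAddS, cMul0, cMulS, cLt, cPair1, cPair2]

def full (u : Code) : List Clause := cHalt u :: (base ++ prog u)

/-- intended meaning -/
def Tr (u : Code) (f : Fin 4 → ℕ) : Prop :=
  (f 0 = 0 → f 1 + f 2 = f 3) ∧ (f 0 = 1 → f 1 * f 2 = f 3) ∧ (f 0 = 2 → f 1 < f 2) ∧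
    (f 0 = 3 → Nat.pair (f 1) (f 2) = f 3) ∧ (f 0 = 4 → (eval u (f 1)).Dom) ∧
    ∀ c, f 0 = sE c → f 2 ∈ eval c (f 1)

section
variable (u : Code) (a b c : ℕ)
theorem Tr0 : Tr u ![0, a, b, c] ↔ a + b = c := by simp [Tr, sE]
theorem Tr1 : Tr u ![1, a, b, c] ↔ a * b = c := by simp [Tr, sE]
theorem Tr2 : Tr u ![2, a, b, c] ↔ a < b := by simp [Tr, sE]
theorem Tr3 : Tr u ![3, a, b, c] ↔ Nat.pair a b = c := by simp [Tr, sE]
theorem Tr4 : Tr u ![4, a, b, c] ↔ (eval u a).Dom := by simp [Tr, sE]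
theorem TrE (d : Code) : Tr u ![sE d, a, b, c] ↔ b ∈ eval d a := by
  constructor
  · intro h
    exact h.2.2.2.2.2 d rfl
  · intro h
    refine ⟨?_, ?_, ?_, ?_, ?_, fun e he => ?_⟩
    any_goals simp [sE]
    rw [← sE_inj (c := d) (d := e) he]
    exact h
end

theorem mem_rfind' (f : Code) (a m j : ℕ) : j ∈ eval (.rfind' f) (Nat.pair a m) ↔
    ∃ n, j = n + m ∧ 0 ∈ eval f (Nat.pair a (n + m)) ∧
      ∀ k, k < n → ∃ v, v + 1 ∈ eval f (Nat.pair a (k + m)) := by
  simp only [eval, Nat.unpaired, Nat.unpair_pair, Part.mem_map_iff, Nat.mem_rfind,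
    Part.map_eq_map]
  constructor
  · rintro ⟨n, ⟨⟨x, hx, h0⟩, h2⟩, rfl⟩
    have hx0 : x = 0 := by simpa using h0
    subst hx0
    refine ⟨n, rfl, hx, fun k hk => ?_⟩
    obtain ⟨y, hy, h1⟩ := h2 hk
    have hy0 : y ≠ 0 := by simpa using h1
    exact ⟨y - 1, by rwa [Nat.sub_add_cancel (by omega)]⟩
  · rintro ⟨n, rfl, h0, h1⟩
    refine ⟨n, ⟨⟨0, h0, by simp⟩, fun {k} hk => ?_⟩, rfl⟩
    obtain ⟨v, hv⟩ := h1 k hk
    exact ⟨v + 1, hv, by simp⟩

def Valid (u : Code) (c : Clause) : Prop :=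
  ∀ ρ : ℕ → ℕ, (∀ a ∈ c.1, Tr u (a.ev ρ)) → Tr u (c.2.ev ρ)

theorem valid_own (u d : Code) : ∀ c ∈ own d, Valid u c := by
  cases d <;>
    simp only [own, List.mem_cons, List.not_mem_nil, or_false, forall_eq_or_imp, forall_eq,
      Valid, ev_mk, ev_X, ev_S, ev_Z, Tr3, TrE, IsEmpty.forall_iff, implies_true, and_imp,
      forall_const]
  case zero => intro ρ; exact Part.mem_some 0
  case succ => intro ρ; simp [eval]
  case left => intro ρ h; simp [eval, ← h]
  case right => intro ρ h; simp [eval, ← h]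
  case pair f g =>
    intro ρ h1 h2 h3
    simp only [eval, Seq.seq, Part.map_eq_map, Part.mem_bind_iff,
      Part.mem_map_iff]
    exact ⟨_, ⟨_, h1, rfl⟩, _, h2, h3⟩
  case comp f g =>
    intro ρ h1 h2
    simp only [eval, Part.bind_eq_bind, Part.mem_bind_iff]
    exact ⟨_, h1, h2⟩
  case prec f g =>
    refine ⟨fun ρ h1 h2 => ?_, fun ρ h1 h2 h3 h4 h5 h6 => ?_⟩
    · rw [← h1, eval_prec_zero]
      exact h2
    · rw [← h6, eval_prec_succ]
      simp only [Part.bind_eq_bind, Part.mem_bind_iff]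
      refine ⟨ρ 3, h1 ▸ h2, ?_⟩
      rw [h3, h4]
      exact h5
  case rfind' f =>
    refine ⟨fun ρ h1 h2 => ?_, fun ρ h1 h2 h3 h4 => ?_⟩
    · rw [← h1, mem_rfind']
      exact ⟨0, by simp, by simpa [h1] using h2, by simp⟩
    · rw [← h3, mem_rfind'] at h4
      obtain ⟨n, h5, h6, h7⟩ := h4
      rw [← h1, mem_rfind']
      refine ⟨n + 1, by omega, by rwa [show n + 1 + ρ 1 = n + (ρ 1 + 1) by omega], fun k hk => ?_⟩
      rcases k with _ | k
      · exact ⟨ρ 3, by simpa [h1] using h2⟩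
      · rw [show k + 1 + ρ 1 = k + (ρ 1 + 1) by omega]
        exact h7 k (by omega)

theorem valid_prog (u d : Code) : ∀ c ∈ prog d, Valid u c := by
  induction d with
  | zero => exact valid_own u _
  | succ => exact valid_own u _
  | left => exact valid_own u _
  | right => exact valid_own u _
  | pair f g hf hg =>
    intro c hc
    simp only [prog, List.mem_append] at hc
    rcases hc with hc | hc | hc
    exacts [valid_own u _ c hc, hf c hc, hg c hc]
  | comp f g hf hg =>
    intro c hc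
    simp only [prog, List.mem_append] at hc
    rcases hc with hc | hc | hc
    exacts [valid_own u _ c hc, hf c hc, hg c hc]
  | prec f g hf hg =>
    intro c hc
    simp only [prog, List.mem_append] at hc
    rcases hc with hc | hc | hc
    exacts [valid_own u _ c hc, hf c hc, hg c hc]
  | rfind' f hf =>
    intro c hc
    simp only [prog, List.mem_append] at hc
    rcases hc with hc | hc
    exacts [valid_own u _ c hc, hf c hc]

theorem valid_base (u : Code) : ∀ c ∈ base, Valid u c := by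
  simp only [base, cAdd0, cAddS, cMul0, cMulS, cLt, cPair1, cPair2, List.mem_cons,
    List.not_mem_nil, or_false, forall_eq_or_imp, forall_eq, Valid, ev_mk, ev_X, ev_S, ev_Z,
    Tr0, Tr1, Tr2, Tr3, IsEmpty.forall_iff, implies_true, and_imp, forall_const]
  refine ⟨fun ρ => by simp, fun ρ h => by omega, fun ρ => by simp, fun ρ h1 h2 => ?_,
    fun ρ h => by omega, fun ρ h1 h2 h3 => ?_, fun ρ h1 h2 h3 h4 => ?_⟩
  · rw [← h2, ← h1]
    ring
  · rw [Nat.pair, if_pos h1, ← h3, ← h2]
  · rw [Nat.pair, if_neg (by omega), ← h4, ← h3, ← h2]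

theorem der_sound {u : Code} {f : Fin 4 → ℕ} (h : Der (full u) f) : Tr u f := by
  induction h with
  | intro c hc ρ _ ih =>
    have : Valid u c := by
      simp only [full, List.mem_cons, List.mem_append] at hc
      rcases hc with rfl | hc | hc
      · intro ρ h
        have := h _ List.mem_cons_self
        simp only [cHalt, ev_mk, ev_X, ev_Z, TrE, Tr4] at this ⊢
        exact Part.dom_iff_mem.2 ⟨_, this⟩
      · exact valid_base u c hc
      · exact valid_prog u u c hc
    exact this ρ ih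

def lv (l : List ℕ) : ℕ → ℕ := fun i => l.getD i 0

section
variable {P : List Clause}

theorem der_use {c : Clause} (hc : c ∈ P) (l : List ℕ) {f : Fin 4 → ℕ} (hf : c.2.ev (lv l) = f)
    (hb : ∀ a ∈ c.1, Der P (a.ev (lv l))) : Der P f := hf ▸ Der.intro c hc _ hb

theorem der_add (hP : ∀ c ∈ base, c ∈ P) (a b : ℕ) : Der P ![0, a, b, a + b] := by
  induction b with
  | zero => exact der_use (hP cAdd0 (by simp [base])) [a] (by simp [cAdd0, lv]) (by simp [cAdd0])
  | succ b ih =>
    exact der_use (hP cAddS (by simp [base])) [a, b, a + b] (by simp [cAddS, lv, add_assoc])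
      (by simpa [cAddS, lv] using ih)

theorem der_mul (hP : ∀ c ∈ base, c ∈ P) (a b : ℕ) : Der P ![1, a, b, a * b] := by
  induction b with
  | zero => exact der_use (hP cMul0 (by simp [base])) [a] (by simp [cMul0, lv]) (by simp [cMul0])
  | succ b ih =>
    exact der_use (hP cMulS (by simp [base])) [a, b, a * b, a * b + a]
      (by simp [cMulS, lv, Nat.mul_succ])
      (by simpa [cMulS, lv] using ⟨ih, der_add hP _ _⟩)

theorem der_lt (hP : ∀ c ∈ base, c ∈ P) {a b : ℕ} (h : a < b) : Der P ![2, a, b, 0] := by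
  obtain ⟨d, rfl⟩ := Nat.exists_eq_add_of_lt h
  exact der_use (hP cLt (by simp [base])) [a, d, a + d] (by simp [cLt, lv])
    (by simpa [cLt, lv] using der_add hP _ _)

theorem der_pair (hP : ∀ c ∈ base, c ∈ P) (a b : ℕ) : Der P ![3, a, b, Nat.pair a b] := by
  by_cases h : a < b
  · exact der_use (hP cPair1 (by simp [base])) [a, b, b * b, b * b + a]
      (by simp [cPair1, lv, Nat.pair, h])
      (by simpa [cPair1, lv] using ⟨der_lt hP h, der_mul hP _ _, der_add hP _ _⟩)
  · exact der_use (hP cPair2 (by simp [base])) [a, b, a * a, a * a + a, a * a + a + b]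
      (by simp [cPair2, lv, Nat.pair, h])
      (by simpa [cPair2, lv] using
        ⟨der_lt hP (by omega), der_mul hP _ _, der_add hP _ _, der_add hP _ _⟩)

theorem der_eval (hP : ∀ c ∈ base, c ∈ P) (d : Code) : (∀ c ∈ prog d, c ∈ P) →
    ∀ n m, m ∈ eval d n → Der P ![sE d, n, m, 0] := by
  induction d with
  | zero =>
    intro h n m hm
    have : m = 0 := Part.mem_some_iff.1 hm
    subst this
    exact der_use (h _ List.mem_cons_self) [n] (by simp [lv]) (by simp)
  | succ =>
    intro h n m hm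
    have : m = n + 1 := by simpa [eval] using hm
    subst this
    exact der_use (h _ List.mem_cons_self) [n] (by simp [lv]) (by simp)
  | left =>
    intro h n m hm
    have : m = n.unpair.1 := by simpa [eval] using hm
    subst this
    exact der_use (h _ List.mem_cons_self) [n.unpair.1, n.unpair.2, n] (by simp [lv])
      (by simpa [lv] using der_pair hP n.unpair.1 n.unpair.2)
  | right =>
    intro h n m hm
    have : m = n.unpair.2 := by simpa [eval] using hm
    subst this
    exact der_use (h _ List.mem_cons_self) [n.unpair.1, n.unpair.2, n] (by simp [lv])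
      (by simpa [lv] using der_pair hP n.unpair.1 n.unpair.2)
  | pair f g hf hg =>
    intro h n m hm
    simp only [eval, Seq.seq, Part.map_eq_map, Part.mem_bind_iff,
      Part.mem_map_iff] at hm
    obtain ⟨_, ⟨a, ha, rfl⟩, b, hb, rfl⟩ := hm
    have h1 := hf (fun c hc => h c (by simp [prog, hc])) n a ha
    have h2 := hg (fun c hc => h c (by simp [prog, hc])) n b hb
    exact der_use (h _ List.mem_cons_self) [n, a, b, Nat.pair a b] (by simp [lv])
      (by simpa [lv] using ⟨h1, h2, der_pair hP a b⟩)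
  | comp f g hf hg =>
    intro h n m hm
    simp only [eval, Part.bind_eq_bind, Part.mem_bind_iff] at hm
    obtain ⟨a, ha, hb⟩ := hm
    have h1 := hf (fun c hc => h c (by simp [prog, hc])) a m hb
    have h2 := hg (fun c hc => h c (by simp [prog, hc])) n a ha
    exact der_use (h _ List.mem_cons_self) [n, a, m] (by simp [lv])
      (by simpa [lv] using ⟨h2, h1⟩)
  | prec f g hf hg =>
    intro h n m hm
    have hf' := hf (fun c hc => h c (by simp [prog, hc]))
    have hg' := hg (fun c hc => h c (by simp [prog, hc]))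
    rw [← Nat.pair_unpair n] at hm ⊢
    generalize n.unpair.1 = a at hm ⊢
    generalize n.unpair.2 = k at hm ⊢
    induction k generalizing m with
    | zero =>
      rw [eval_prec_zero] at hm
      exact der_use (h _ List.mem_cons_self) [a, Nat.pair a 0, m] (by simp [lv])
        (by simpa [lv] using ⟨der_pair hP a 0, hf' a m hm⟩)
    | succ k ih =>
      rw [eval_prec_succ] at hm
      simp only [Part.bind_eq_bind, Part.mem_bind_iff] at hm
      obtain ⟨i, hi, hm⟩ := hm
      exact der_use (h _ (List.mem_cons_of_mem _ List.mem_cons_self))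
        [a, k, Nat.pair a k, i, Nat.pair k i, Nat.pair a (Nat.pair k i), m, Nat.pair a (k + 1)]
        (by simp [lv])
        (by simpa [lv] using ⟨der_pair hP a k, ih i hi, der_pair hP k i, der_pair hP a _,
          hg' _ _ hm, der_pair hP a _⟩)
  | rfind' f hf =>
    intro h n j hj
    have hf' := hf (fun c hc => h c (by simp [prog, hc]))
    rw [← Nat.pair_unpair n] at hj ⊢
    generalize n.unpair.1 = a at hj ⊢
    generalize n.unpair.2 = m at hj ⊢
    rw [mem_rfind'] at hj
    obtain ⟨k, rfl, h0, h1⟩ := hj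
    induction k generalizing m with
    | zero =>
      exact der_use (h _ List.mem_cons_self) [a, m, Nat.pair a m] (by simp [lv])
        (by simpa [lv] using ⟨der_pair hP a m, hf' _ _ (by simpa using h0)⟩)
    | succ k ih =>
      obtain ⟨v, hv⟩ := h1 0 (by omega)
      have e : k + 1 + m = k + (m + 1) := by omega
      have := ih (m + 1) (e ▸ h0) (fun l hl => by
        have := h1 (l + 1) (by omega)
        rwa [show l + 1 + m = l + (m + 1) by omega] at this)
      exact der_use (h _ (List.mem_cons_of_mem _ List.mem_cons_self))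
        [a, m, Nat.pair a m, v, Nat.pair a (m + 1), k + (m + 1)]
        (by simp [lv, e])
        (by simpa [lv] using ⟨der_pair hP a m, hf' _ _ (by simpa using hv), der_pair hP a _,
          this⟩)

end

theorem der_halt (u : Code) (n : ℕ) : Der (full u) ![4, n, 0, 0] ↔ (eval u n).Dom := by
  refine ⟨fun h => (Tr4 u n 0 0).1 (der_sound h), fun h => ?_⟩
  obtain ⟨m, hm⟩ := Part.dom_iff_mem.1 h
  have := der_eval (P := full u) (fun c hc => by simp [full, hc]) u
    (fun c hc => by simp [full, hc]) n m hm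
  exact der_use (P := full u) (c := cHalt u) List.mem_cons_self [n, m] (by simp [cHalt, lv])
    (by simpa [cHalt, lv] using this)

theorem der_ex (u : Code) : ∃ f, Der (full u) f :=
  ⟨_, der_add (fun c hc => by simp [full, hc]) 0 0⟩

end Pool.Agent.Lib.MP_47f674_lc
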