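import Mathlib
import Pool.Agent.Lib.MP_47f674_lc.Defs

namespace Pool.Agent.Lib.MP_47f674_lc

open Classical

noncomputable instance instDecEqFm : DecidableEq Fm := Classical.decEq _

def force {W : Type} [Preorder W] (V : ℕ → W → Prop) : Fm → W → Prop
  | .var n, w => V n w
  | .bot, _ => False
  | .and a b, w => force V a w ∧ force V b w
  | .or a b, w => force V a w ∨ force V b w
  | .imp a b, w => ∀ u, w ≤ u → force V a u → force V b u

def Mono {W : Type} [Preorder W] (V : ℕ → W → Prop) : Prop :=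
  ∀ n w u, w ≤ u → V n w → V n u

section
variable {W : Type} [Preorder W] {V : ℕ → W → Prop}

@[simp] theorem force_var (n : ℕ) (w : W) : force V (.var n) w ↔ V n w := Iff.rfl
@[simp] theorem force_bot (w : W) : force V .bot w ↔ False := Iff.rfl
@[simp] theorem force_and (a b : Fm) (w : W) :
    force V (.and a b) w ↔ force V a w ∧ force V b w := Iff.rfl
@[simp] theorem force_or (a b : Fm) (w : W) :
    force V (.or a b) w ↔ force V a w ∨ force V b w := Iff.rfl
theorem force_imp (a b : Fm) (w : W) :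
    force V (.imp a b) w ↔ ∀ u, w ≤ u → force V a u → force V b u := Iff.rfl

theorem force_mono (hV : Mono V) : ∀ (a : Fm) {w u : W}, w ≤ u → force V a w → force V a u
  | .var n, _, _, h, hw => hV n _ _ h hw
  | .bot, _, _, _, hw => hw
  | .and a b, _, _, h, hw => ⟨force_mono hV a h hw.1, force_mono hV b h hw.2⟩
  | .or a b, _, _, h, hw => hw.imp (force_mono hV a h) (force_mono hV b h)
  | .imp _ _, _, _, h, hw => fun v hv ha => hw v (le_trans h hv) ha

theorem force_subst (σ : ℕ → Fm) : ∀ (a : Fm) (w : W),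
    force V (a.subst σ) w ↔ force (fun n => force V (σ n)) a w
  | .var _, _ => Iff.rfl
  | .bot, _ => Iff.rfl
  | .and a b, w => and_congr (force_subst σ a w) (force_subst σ b w)
  | .or a b, w => or_congr (force_subst σ a w) (force_subst σ b w)
  | .imp a b, w => by
      simp only [Fm.subst, force_imp]
      exact forall_congr' fun u => imp_congr_right fun _ =>
        imp_congr (force_subst σ a u) (force_subst σ b u)

theorem mono_subst (hV : Mono V) (σ : ℕ → Fm) : Mono (fun n => force V (σ n)) :=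
  fun n _ _ h hw => force_mono hV (σ n) h hw

/-- forcing at `w` only depends on the valuation above `w`. -/
theorem force_congr {V' : ℕ → W → Prop} : ∀ (a : Fm) (w : W),
    (∀ u, w ≤ u → ∀ n, V n u ↔ V' n u) → (force V a w ↔ force V' a w)
  | .var n, w, h => h w le_rfl n
  | .bot, _, _ => Iff.rfl
  | .and a b, w, h => and_congr (force_congr a w h) (force_congr b w h)
  | .or a b, w, h => or_congr (force_congr a w h) (force_congr b w h)
  | .imp a b, w, h => by
      simp only [force_imp]
      refine forall_congr' fun u => imp_congr_right fun hu => ?_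
      have h' : ∀ v, u ≤ v → ∀ n, V n v ↔ V' n v := fun v hv => h v (le_trans hu hv)
      exact imp_congr (force_congr a u h') (force_congr b u h')

theorem force_ax (hV : Mono V) {a : Fm} (h : IPCAx a) (w : W) : force V a w := by
  cases h with
  | k a b => exact fun u _ ha v hv _ => force_mono hV a hv ha
  | s a b c =>
    exact fun u _ h1 v hv h2 x hx ha =>
      h1 x (le_trans hv hx) ha x le_rfl (h2 x hx ha)
  | andL a b => exact fun u _ h => h.1
  | andR a b => exact fun u _ h => h.2
  | andI a b => exact fun u _ ha v hv hb => ⟨force_mono hV a hv ha, hb⟩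
  | orL a b => exact fun u _ h => Or.inl h
  | orR a b => exact fun u _ h => Or.inr h
  | orE a b c =>
    exact fun u _ h1 v hv h2 x hx hab =>
      hab.elim (h1 x (le_trans hv hx)) (h2 x hx)
  | efq a => exact fun u _ h => h.elim

theorem soundness (hV : Mono V) {X : Set Fm} {w : W} (hX : ∀ c ∈ X, force V c w) {b : Fm}
    (h : Deriv X b) : force V b w := by
  induction h with
  | ax h => exact force_ax hV h w
  | hyp h => exact hX _ h
  | mp _ _ ih1 ih2 => exact ih1 w le_rfl ih2

end

def top : Fm := .imp .bot .bot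
def neg (a : Fm) : Fm := .imp a .bot
def conj : List Fm → Fm
  | [] => top
  | a :: l => .and a (conj l)
def disj : List Fm → Fm
  | [] => .bot
  | a :: l => .or a (disj l)

section
variable {W : Type} [Preorder W] {V : ℕ → W → Prop}
@[simp] theorem force_top (w : W) : force V top w := fun _ _ h => h
theorem force_neg (a : Fm) (w : W) : force V (neg a) w ↔ ∀ u, w ≤ u → ¬ force V a u := Iff.rfl
@[simp] theorem force_conj (l : List Fm) (w : W) :
    force V (conj l) w ↔ ∀ a ∈ l, force V a w := by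
  induction l with
  | nil => simp [conj]
  | cons a l ih => simp [conj, ih]
@[simp] theorem force_disj (l : List Fm) (w : W) :
    force V (disj l) w ↔ ∃ a ∈ l, force V a w := by
  induction l with
  | nil => simp [disj]
  | cons a l ih => simp [disj, ih]
end

theorem subst_subst (σ τ : ℕ → Fm) : ∀ a : Fm,
    (a.subst σ).subst τ = a.subst (fun n => (σ n).subst τ)
  | .var _ => rfl
  | .bot => rfl
  | .and a b => by simp [Fm.subst, subst_subst σ τ a, subst_subst σ τ b]
  | .or a b => by simp [Fm.subst, subst_subst σ τ a, subst_subst σ τ b]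
  | .imp a b => by simp [Fm.subst, subst_subst σ τ a, subst_subst σ τ b]

theorem subst_var : ∀ a : Fm, a.subst Fm.var = a
  | .var _ => rfl
  | .bot => rfl
  | .and a b => by simp [Fm.subst, subst_var a, subst_var b]
  | .or a b => by simp [Fm.subst, subst_var a, subst_var b]
  | .imp a b => by simp [Fm.subst, subst_var a, subst_var b]

@[simp] theorem subst_top (σ : ℕ → Fm) : top.subst σ = top := rfl
@[simp] theorem subst_neg (σ : ℕ → Fm) (a : Fm) : (neg a).subst σ = neg (a.subst σ) := rfl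
@[simp] theorem subst_conj (σ : ℕ → Fm) (l : List Fm) :
    (conj l).subst σ = conj (l.map (Fm.subst σ)) := by
  induction l with
  | nil => rfl
  | cons a l ih => simp [conj, Fm.subst, ih]
@[simp] theorem subst_disj (σ : ℕ → Fm) (l : List Fm) :
    (disj l).subst σ = disj (l.map (Fm.subst σ)) := by
  induction l with
  | nil => rfl
  | cons a l ih => simp [disj, Fm.subst, ih]

/-- Theories: closed under IPC schemes and modus ponens. -/
structure IsTh (T : Set Fm) : Prop where
  ax : ∀ {a}, IPCAx a → a ∈ T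
  mp : ∀ {a b}, Fm.imp a b ∈ T → a ∈ T → b ∈ T

theorem isTh_deriv (X : Set Fm) : IsTh {b | Deriv X b} :=
  ⟨fun h => Deriv.ax h, fun h1 h2 => Deriv.mp h1 h2⟩

theorem IsTh.deriv {T X : Set Fm} (hT : IsTh T) (hX : X ⊆ T) {b : Fm} (h : Deriv X b) : b ∈ T := by
  induction h with
  | ax h => exact hT.ax h
  | hyp h => exact hX h
  | mp _ _ ih1 ih2 => exact hT.mp ih1 ih2

theorem IsTh.imp_self {T : Set Fm} (hT : IsTh T) (a : Fm) : Fm.imp a a ∈ T :=
  hT.mp (hT.mp (hT.ax (IPCAx.s a (.imp a a) a)) (hT.ax (IPCAx.k a (.imp a a))))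
    (hT.ax (IPCAx.k a a))

theorem IsTh.weak {T : Set Fm} (hT : IsTh T) (a : Fm) {b : Fm} (h : b ∈ T) : Fm.imp a b ∈ T :=
  hT.mp (hT.ax (IPCAx.k b a)) h

theorem IsTh.ext {T : Set Fm} (hT : IsTh T) (a : Fm) : IsTh {c | Fm.imp a c ∈ T} :=
  ⟨fun h => hT.weak a (hT.ax h),
   fun {b c} h1 h2 => hT.mp (hT.mp (hT.ax (IPCAx.s a b c)) h1) h2⟩

/-- Prime theories. -/
structure PT where
  T : Set Fm
  th : IsTh T
  cons : Fm.bot ∉ T
  prime : ∀ {a b}, Fm.or a b ∈ T → a ∈ T ∨ b ∈ T

instance : Preorder PT where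
  le x y := x.T ⊆ y.T
  le_refl _ := subset_rfl
  le_trans _ _ _ := subset_trans

theorem PT.le_def (x y : PT) : x ≤ y ↔ x.T ⊆ y.T := Iff.rfl

theorem lindenbaum {T : Set Fm} (hT : IsTh T) {b : Fm} (hb : b ∉ T) :
    ∃ y : PT, T ⊆ y.T ∧ b ∉ y.T ∧ ∀ a, a ∉ y.T → Fm.imp a b ∈ y.T := by
  let S : Set (Set Fm) := {U | IsTh U ∧ b ∉ U}
  have hS : ∀ c ⊆ S, IsChain (· ⊆ ·) c → c.Nonempty → ∃ ub ∈ S, ∀ s ∈ c, s ⊆ ub := by
    intro c hc hch hne
    refine ⟨⋃₀ c, ⟨⟨fun h => ?_, fun {a d} h1 h2 => ?_⟩, ?_⟩, fun s hs => Set.subset_sUnion_of_mem hs⟩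
    · obtain ⟨U, hU⟩ := hne
      exact ⟨U, hU, (hc hU).1.ax h⟩
    · obtain ⟨U1, hU1, h1⟩ := h1
      obtain ⟨U2, hU2, h2⟩ := h2
      rcases hch.total hU1 hU2 with h | h
      · exact ⟨U2, hU2, (hc hU2).1.mp (h h1) h2⟩
      · exact ⟨U1, hU1, (hc hU1).1.mp h1 (h h2)⟩
    · rintro ⟨U, hU, h⟩
      exact (hc hU).2 h
  obtain ⟨m, hTm, hm⟩ := zorn_subset_nonempty S hS T ⟨hT, hb⟩
  have hmS : IsTh m ∧ b ∉ m := hm.prop
  have key : ∀ a, a ∉ m → Fm.imp a b ∈ m := by
    intro a ha
    by_contra hab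
    have h1 : {c | Fm.imp a c ∈ m} ∈ S := ⟨hmS.1.ext a, hab⟩
    have h2 : m ⊆ {c | Fm.imp a c ∈ m} := fun c hc => hmS.1.weak a hc
    exact ha (hm.le_of_ge h1 h2 (hmS.1.imp_self a))
  refine ⟨⟨m, hmS.1, fun h => hmS.2 (hmS.1.mp (hmS.1.ax (IPCAx.efq b)) h), fun {a c} h => ?_⟩,
    hTm, hmS.2, key⟩
  by_contra hn
  rw [not_or] at hn
  exact hmS.2 (hmS.1.mp (hmS.1.mp (hmS.1.mp (hmS.1.ax (IPCAx.orE a c b)) (key a hn.1))
    (key c hn.2)) h)

def canV : ℕ → PT → Prop := fun n x => Fm.var n ∈ x.T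

theorem canV_mono : Mono canV := fun _ _ _ h hw => h hw

theorem PT.and_iff (x : PT) (a b : Fm) : Fm.and a b ∈ x.T ↔ a ∈ x.T ∧ b ∈ x.T :=
  ⟨fun h => ⟨x.th.mp (x.th.ax (IPCAx.andL a b)) h, x.th.mp (x.th.ax (IPCAx.andR a b)) h⟩,
   fun h => x.th.mp (x.th.mp (x.th.ax (IPCAx.andI a b)) h.1) h.2⟩

theorem PT.or_iff (x : PT) (a b : Fm) : Fm.or a b ∈ x.T ↔ a ∈ x.T ∨ b ∈ x.T :=
  ⟨x.prime, fun h => h.elim (x.th.mp (x.th.ax (IPCAx.orL a b)))
    (x.th.mp (x.th.ax (IPCAx.orR a b)))⟩

theorem truth : ∀ (a : Fm) (x : PT), force canV a x ↔ a ∈ x.T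
  | .var _, _ => Iff.rfl
  | .bot, x => ⟨False.elim, x.cons⟩
  | .and a b, x => by rw [force_and, truth a, truth b, x.and_iff]
  | .or a b, x => by rw [force_or, truth a, truth b, x.or_iff]
  | .imp a b, x => by
      rw [force_imp]
      constructor
      · intro h
        by_contra hab
        obtain ⟨y, hy, hby, -⟩ := lindenbaum (x.th.ext a) (b := b) hab
        have hxy : x ≤ y := fun c hc => hy (x.th.weak a hc)
        exact hby ((truth b y).1 (h y hxy ((truth a y).2 (hy (x.th.imp_self a)))))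
      · intro h y hy ha
        exact (truth b y).2 (y.th.mp (hy h) ((truth a y).1 ha))

theorem exists_pt {X : Set Fm} {b : Fm} (h : ¬ Deriv X b) :
    ∃ x : PT, (∀ c, Deriv X c → c ∈ x.T) ∧ b ∉ x.T := by
  obtain ⟨y, hy, hb, -⟩ := lindenbaum (isTh_deriv X) (b := b) h
  exact ⟨y, fun c hc => hy hc, hb⟩

/-- strong completeness -/
theorem completeness {X : Set Fm} {b : Fm}
    (h : ∀ (W : Type) [Preorder W] (V : ℕ → W → Prop), Mono V → ∀ w : W,
      (∀ c ∈ X, force V c w) → force V b w) : Deriv X b := by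
  by_contra hb
  obtain ⟨x, hx, hbx⟩ := exists_pt hb
  exact hbx ((truth b x).1 (h PT canV canV_mono x
    (fun c hc => (truth c x).2 (hx c (Deriv.hyp hc)))))

/-- subformulas -/
noncomputable def Fm.sub : Fm → Finset Fm
  | .var n => {.var n}
  | .bot => {.bot}
  | .and a b => insert (.and a b) (a.sub ∪ b.sub)
  | .or a b => insert (.or a b) (a.sub ∪ b.sub)
  | .imp a b => insert (.imp a b) (a.sub ∪ b.sub)

structure SubCl (S : Finset Fm) : Prop where
  and : ∀ {a b}, Fm.and a b ∈ S → a ∈ S ∧ b ∈ S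
  or : ∀ {a b}, Fm.or a b ∈ S → a ∈ S ∧ b ∈ S
  imp : ∀ {a b}, Fm.imp a b ∈ S → a ∈ S ∧ b ∈ S

theorem self_mem_sub (a : Fm) : a ∈ a.sub := by cases a <;> simp [Fm.sub]

theorem SubCl.union {S T : Finset Fm} (hS : SubCl S) (hT : SubCl T) : SubCl (S ∪ T) := by
  constructor
  all_goals
    intro a b h
    rcases Finset.mem_union.1 h with h | h
  · exact ⟨Finset.mem_union_left _ (hS.and h).1, Finset.mem_union_left _ (hS.and h).2⟩
  · exact ⟨Finset.mem_union_right _ (hT.and h).1, Finset.mem_union_right _ (hT.and h).2⟩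
  · exact ⟨Finset.mem_union_left _ (hS.or h).1, Finset.mem_union_left _ (hS.or h).2⟩
  · exact ⟨Finset.mem_union_right _ (hT.or h).1, Finset.mem_union_right _ (hT.or h).2⟩
  · exact ⟨Finset.mem_union_left _ (hS.imp h).1, Finset.mem_union_left _ (hS.imp h).2⟩
  · exact ⟨Finset.mem_union_right _ (hT.imp h).1, Finset.mem_union_right _ (hT.imp h).2⟩

theorem subCl_sub : ∀ a : Fm, SubCl a.sub
  | .var n => by constructor <;> simp [Fm.sub]
  | .bot => by constructor <;> simp [Fm.sub]
  | .and a b => by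
      have h := (subCl_sub a).union (subCl_sub b)
      have ha := self_mem_sub a
      have hb := self_mem_sub b
      constructor
      all_goals
        intro c d hcd
        simp only [Fm.sub, Finset.mem_insert] at hcd ⊢
        rcases hcd with hcd | hcd
      · cases hcd; simp [ha, hb]
      · exact ⟨Or.inr (h.and hcd).1, Or.inr (h.and hcd).2⟩
      · cases hcd
      · exact ⟨Or.inr (h.or hcd).1, Or.inr (h.or hcd).2⟩
      · cases hcd
      · exact ⟨Or.inr (h.imp hcd).1, Or.inr (h.imp hcd).2⟩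
  | .or a b => by
      have h := (subCl_sub a).union (subCl_sub b)
      have ha := self_mem_sub a
      have hb := self_mem_sub b
      constructor
      all_goals
        intro c d hcd
        simp only [Fm.sub, Finset.mem_insert] at hcd ⊢
        rcases hcd with hcd | hcd
      · cases hcd
      · exact ⟨Or.inr (h.and hcd).1, Or.inr (h.and hcd).2⟩
      · cases hcd; simp [ha, hb]
      · exact ⟨Or.inr (h.or hcd).1, Or.inr (h.or hcd).2⟩
      · cases hcd
      · exact ⟨Or.inr (h.imp hcd).1, Or.inr (h.imp hcd).2⟩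
  | .imp a b => by
      have h := (subCl_sub a).union (subCl_sub b)
      have ha := self_mem_sub a
      have hb := self_mem_sub b
      constructor
      all_goals
        intro c d hcd
        simp only [Fm.sub, Finset.mem_insert] at hcd ⊢
        rcases hcd with hcd | hcd
      · cases hcd
      · exact ⟨Or.inr (h.and hcd).1, Or.inr (h.and hcd).2⟩
      · cases hcd
      · exact ⟨Or.inr (h.or hcd).1, Or.inr (h.or hcd).2⟩
      · cases hcd; simp [ha, hb]
      · exact ⟨Or.inr (h.imp hcd).1, Or.inr (h.imp hcd).2⟩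

/-- Filtration: a family of points of a model, closed upwards, gives a finite model on types. -/
noncomputable def typ {W : Type} [Preorder W] (S : Finset Fm) (V : ℕ → W → Prop) (w : W) :
    Finset Fm := S.filter (fun a => force V a w)

def Filt {W : Type} [Preorder W] (S : Finset Fm) (V : ℕ → W → Prop) : Type :=
  {t : Finset Fm // ∃ w, t = typ S V w}

noncomputable instance {W : Type} [Preorder W] (S : Finset Fm) (V : ℕ → W → Prop) :
    PartialOrder (Filt S V) := inferInstanceAs (PartialOrder {t : Finset Fm // ∃ w, t = typ S V w})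

instance {W : Type} [Preorder W] (S : Finset Fm) (V : ℕ → W → Prop) : Finite (Filt S V) := by
  have : Set.Finite {t : Finset Fm | ∃ w, t = typ S V w} := by
    refine (S.powerset.finite_toSet).subset ?_
    rintro t ⟨w, rfl⟩
    exact Finset.mem_coe.2 (Finset.mem_powerset.2 (Finset.filter_subset _ _))
  exact this

def filtV {W : Type} [Preorder W] (S : Finset Fm) (V : ℕ → W → Prop) : ℕ → Filt S V → Prop :=
  fun n t => Fm.var n ∈ t.1

theorem filtV_mono {W : Type} [Preorder W] (S : Finset Fm) (V : ℕ → W → Prop) :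
    Mono (filtV S V) := fun _ _ _ h hw => h hw

theorem filt_truth {W : Type} [Preorder W] {S : Finset Fm} (hS : SubCl S) {V : ℕ → W → Prop}
    (hV : Mono V) : ∀ (a : Fm), a ∈ S → ∀ t : Filt S V, force (filtV S V) a t ↔ a ∈ t.1
  | .var _, _, _ => Iff.rfl
  | .bot, _, ⟨_, w, rfl⟩ => by simp [typ]
  | .and a b, h, ⟨t, w, ht⟩ => by
      rw [force_and, filt_truth hS hV a (hS.and h).1, filt_truth hS hV b (hS.and h).2]
      subst ht
      simp [typ, h, (hS.and h).1, (hS.and h).2]
  | .or a b, h, ⟨t, w, ht⟩ => by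
      rw [force_or, filt_truth hS hV a (hS.or h).1, filt_truth hS hV b (hS.or h).2]
      subst ht
      simp [typ, h, (hS.or h).1, (hS.or h).2]
  | .imp a b, h, ⟨t, w, ht⟩ => by
      rw [force_imp]
      subst ht
      have ha := (hS.imp h).1
      have hb := (hS.imp h).2
      constructor
      · intro H
        simp only [typ, Finset.mem_filter, h, true_and]
        intro u hu hau
        have hle : (⟨typ S V w, w, rfl⟩ : Filt S V) ≤ ⟨typ S V u, u, rfl⟩ := by
          intro c hc
          simp only [typ, Finset.mem_filter] at hc ⊢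
          exact ⟨hc.1, force_mono hV c hu hc.2⟩
        have := H _ hle ((filt_truth hS hV a ha _).2 (by simp [typ, ha, hau]))
        rw [filt_truth hS hV b hb] at this
        simpa [typ, hb] using this
      · rintro H ⟨t', u, rfl⟩ hle hau
        rw [filt_truth hS hV a ha] at hau
        rw [filt_truth hS hV b hb]
        have h1 : Fm.imp a b ∈ typ S V u := hle H
        simp only [typ, Finset.mem_filter] at h1 hau ⊢
        exact ⟨hb, h1.2 u le_rfl hau.2⟩

/-- finite model property of IPC -/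
theorem completeness_fin {b : Fm}
    (h : ∀ (W : Type) [PartialOrder W] [Finite W] (V : ℕ → W → Prop), Mono V → ∀ w : W,
      force V b w) : Deriv ∅ b := by
  refine completeness fun W _ V hV w _ => ?_
  have := h (Filt b.sub V) (filtV b.sub V) (filtV_mono _ _) ⟨typ b.sub V w, w, rfl⟩
  rw [filt_truth (subCl_sub b) hV b (self_mem_sub b)] at this
  simp only [typ, Finset.mem_filter] at this
  exact this.2

/-- The slash of a family of prime theories: a tight predecessor. -/
def slash (S : Set PT) : Fm → Prop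
  | .var _ => False
  | .bot => False
  | .and a b => slash S a ∧ slash S b
  | .or a b => slash S a ∨ slash S b
  | .imp a b => (∀ y ∈ S, Fm.imp a b ∈ y.T) ∧ (slash S a → slash S b)

theorem slash_sub (S : Set PT) : ∀ a : Fm, slash S a → ∀ y ∈ S, a ∈ y.T
  | .var _, h => h.elim
  | .bot, h => h.elim
  | .and a b, h => fun y hy => (y.and_iff a b).2 ⟨slash_sub S a h.1 y hy, slash_sub S b h.2 y hy⟩
  | .or a b, h => fun y hy => (y.or_iff a b).2
      (h.imp (fun h => slash_sub S a h y hy) (fun h => slash_sub S b h y hy))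
  | .imp _ _, h => h.1

theorem slash_ax (S : Set PT) {a : Fm} (h : IPCAx a) : slash S a := by
  have hh := h
  cases h with
  | k a b =>
    exact ⟨fun y _ => y.th.ax hh, fun ha => ⟨fun y hy => y.th.weak b (slash_sub S a ha y hy),
      fun _ => ha⟩⟩
  | s a b c =>
    refine ⟨fun y _ => y.th.ax hh, fun h1 => ⟨fun y hy => y.th.mp (y.th.ax hh) (h1.1 y hy),
      fun h2 => ⟨fun y hy => y.th.mp (y.th.mp (y.th.ax hh) (h1.1 y hy)) (h2.1 y hy),
        fun ha => (h1.2 ha).2 (h2.2 ha)⟩⟩⟩
  | andL a b => exact ⟨fun y _ => y.th.ax hh, fun h => h.1⟩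
  | andR a b => exact ⟨fun y _ => y.th.ax hh, fun h => h.2⟩
  | andI a b =>
    exact ⟨fun y _ => y.th.ax hh, fun ha =>
      ⟨fun y hy => y.th.mp (y.th.ax hh) (slash_sub S a ha y hy), fun hb => ⟨ha, hb⟩⟩⟩
  | orL a b => exact ⟨fun y _ => y.th.ax hh, fun h => Or.inl h⟩
  | orR a b => exact ⟨fun y _ => y.th.ax hh, fun h => Or.inr h⟩
  | orE a b c =>
    refine ⟨fun y _ => y.th.ax hh, fun h1 => ⟨fun y hy => y.th.mp (y.th.ax hh) (h1.1 y hy),
      fun h2 => ⟨fun y hy => y.th.mp (y.th.mp (y.th.ax hh) (h1.1 y hy)) (h2.1 y hy),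
        fun hab => hab.elim h1.2 h2.2⟩⟩⟩
  | efq a => exact ⟨fun y _ => y.th.ax hh, fun h => h.elim⟩

def slashPT (S : Set PT) : PT where
  T := {a | slash S a}
  th := ⟨fun h => slash_ax S h, fun h1 h2 => h1.2 h2⟩
  cons := fun h => h
  prime := fun h => h

theorem slashPT_le (S : Set PT) {y : PT} (hy : y ∈ S) : slashPT S ≤ y :=
  fun a ha => slash_sub S a ha y hy

theorem slashPT_imp (S : Set PT) (a b : Fm) : Fm.imp a b ∈ (slashPT S).T ↔
    (∀ y ∈ S, Fm.imp a b ∈ y.T) ∧ (a ∈ (slashPT S).T → b ∈ (slashPT S).T) := Iff.rfl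

end Pool.Agent.Lib.MP_47f674_lc
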