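import Pool.Agent.Lib.MP_47f674_lc.Frame
import Pool.Agent.Lib.MP_47f674_lc.Horn

namespace Pool.Agent.Lib.MP_47f674_lc

open Nat.Partrec Nat.Partrec.Code

def codeSub : Fm → ℕ × ℕ → ℕ
  | .var n, p => if n < 9 then Nat.pair 0 n else if n % 2 = 1 then p.1 else p.2
  | .bot, _ => Nat.pair 1 0
  | .and a b, p => Nat.pair 2 (Nat.pair (codeSub a p) (codeSub b p))
  | .or a b, p => Nat.pair 3 (Nat.pair (codeSub a p) (codeSub b p))
  | .imp a b, p => Nat.pair 4 (Nat.pair (codeSub a p) (codeSub b p))

theorem codeSub_eq (v : Fm × Fm) : ∀ a : Fm,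
    codeSub a (v.1.code, v.2.code) = (a.subst (asg fun _ => v)).code
  | .var n => by
      simp only [codeSub, Fm.subst, asg]
      split_ifs <;> rfl
  | .bot => rfl
  | .and a b => by simp [codeSub, Fm.subst, Fm.code, codeSub_eq v a, codeSub_eq v b]
  | .or a b => by simp [codeSub, Fm.subst, Fm.code, codeSub_eq v a, codeSub_eq v b]
  | .imp a b => by simp [codeSub, Fm.subst, Fm.code, codeSub_eq v a, codeSub_eq v b]

theorem codeSub_prim : ∀ a : Fm, Primrec (codeSub a)
  | .var n => by
      show Primrec fun p : ℕ × ℕ =>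
        if n < 9 then Nat.pair 0 n else if n % 2 = 1 then p.1 else p.2
      split_ifs
      · exact Primrec.const _
      · exact Primrec.fst
      · exact Primrec.snd
  | .bot => Primrec.const _
  | .and a b => Primrec₂.natPair.comp (Primrec.const 2)
      (Primrec₂.natPair.comp (codeSub_prim a) (codeSub_prim b))
  | .or a b => Primrec₂.natPair.comp (Primrec.const 3)
      (Primrec₂.natPair.comp (codeSub_prim a) (codeSub_prim b))
  | .imp a b => Primrec₂.natPair.comp (Primrec.const 4)
      (Primrec₂.natPair.comp (codeSub_prim a) (codeSub_prim b))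

def numCode (n : ℕ) : ℕ × ℕ := ((num n).1.code, (num n).2.code)

theorem numCode_prim : Primrec numCode := by
  have h : Primrec (fun n : ℕ => Nat.rec (motive := fun _ => ℕ × ℕ) (numCode 0)
      (fun _ p => (codeSub (sc (vv 0)).1 p, codeSub (sc (vv 0)).2 p)) n) :=
    Primrec.nat_rec₁ _ ((((codeSub_prim _).comp Primrec.snd).pair
      ((codeSub_prim _).comp Primrec.snd)).to₂)
  refine h.of_eq fun n => ?_
  induction n with
  | zero => rfl
  | succ n ih =>
    simp only [ih]
    simp only [numCode, codeSub_eq]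
    have : psub (asg fun _ => num n) (sc (vv 0)) = num (n + 1) := by
      rw [psub_sc, psub_asg]
      simp only [num, Function.iterate_succ_apply']
    rw [← this]
    rfl

theorem goal_subst (H : ℕ) (v : Fm × Fm) :
    (GoalFm H (vv 0)).subst (asg fun _ => v) = GoalFm H v := by
  simp only [GoalFm, (asg_fix _).ruleFm, List.map_cons, List.map_nil, (asg_fix _).Fact]
  congr 3
  funext i
  fin_cases i
  · exact (asg_fix _).num H
  · exact psub_asg _ 0
  · exact (asg_fix _).zr
  · exact (asg_fix _).zr

theorem AA_prim (P : List Clause) (H : ℕ) : Primrec fun n => (AA P H n).code := by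
  have h : Primrec fun n => Nat.pair 2 (Nat.pair (Base P).code
      (codeSub (GoalFm H (vv 0)) (numCode n))) :=
    Primrec₂.natPair.comp (Primrec.const 2) (Primrec₂.natPair.comp (Primrec.const _)
      ((codeSub_prim _).comp numCode_prim))
  refine h.of_eq fun n => ?_
  simp only [numCode, codeSub_eq, goal_subst]
  rfl

/-- Any property between admitting all IPC-admissible rules and admitting the ninth Visser rule
is undecidable. -/
theorem undec (Q : Fm → Prop)
    (h1 : ∀ A, (∀ Γ B, Admissible IPC Γ B → Admissible (Logic A) Γ B) → Q A)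
    (h2 : ∀ A, Q A → Admissible (Logic A) [vPrem 9] (vConc 9)) :
    ¬ ∃ f : ℕ → Bool, Computable f ∧ ∀ A : Fm, (f A.code = true ↔ Q A) := by
  rintro ⟨f, hf, hQ⟩
  have hp : Nat.Partrec fun n => eval (Denumerable.ofNat Code n) 0 :=
    Partrec.nat_iff.1 (eval_part.comp (Computable.ofNat Code) (Computable.const 0))
  obtain ⟨u, hu⟩ := exists_code.1 hp
  have key : ∀ n, f (AA (full u) 4 n).code = true ↔ (eval u n).Dom := by
    intro n
    rw [hQ, ← der_halt]
    constructor
    · intro h
      by_contra hn
      exact not_admits (der_ex u) hn (h2 _ h)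
    · intro h
      exact h1 _ (admits_of_der h)
  refine ComputablePred.halting_problem 0 (ComputablePred.computable_iff.2
    ⟨fun c => f (AA (full u) 4 (Encodable.encode c)).code,
      hf.comp ((AA_prim _ _).to_comp.comp Computable.encode), ?_⟩)
  funext c
  rw [key, hu]
  simp

theorem undec_ipc : ¬ ∃ f : ℕ → Bool, Computable f ∧ ∀ A : Fm,
    (f A.code = true ↔ ∀ Γ B, Admissible IPC Γ B → Admissible (Logic A) Γ B) :=
  undec _ (fun _ h => h) (fun _ h => h _ _ (visser_ipc 9))

theorem undec_visser : ¬ ∃ f : ℕ → Bool, Computable f ∧ ∀ A : Fm,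
    (f A.code = true ↔ ∀ n, 1 ≤ n → Admissible (Logic A) [vPrem n] (vConc n)) :=
  undec _ (fun _ h n _ => h _ _ (visser_ipc n)) (fun _ h => h 9 (by omega))

end Pool.Agent.Lib.MP_47f674_lc
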